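import Pool.Agent.N135.QT.Toric
import Pool.Agent.TH864.SX.L1

set_option autoImplicit false

/-!
# The two specializations of the last point
-/

namespace Pool.Agent.N135.QT

open Finset Pool.Agent.TH176.Nag
open Pool.Agent.TH978.S13 (dsc tau tau_eq_sum)

/-- the hypotheses on the numbers -/
structure Hy (M D m j b ν : ℕ) (K δ : ℝ) : Prop where
  hM : 1 ≤ M
  hK1 : (M : ℝ) < K
  hK : 2 * (K * (K - M)) = M
  irr : Irrational K
  hD : D = m + b + 1
  hδ : K * D = (K + 1) * m + ν + δ
  δ0 : 0 ≤ δ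
  δ2 : δ * (2 * K + 2) + ν < K + 1
  hj : δ * (2 * K + 1) < j
  jM : j + ν ≤ M
  jm : 2 * j < m
  hb : 1 ≤ b
  hS : SS b (m - 2 * j) j ≠ 0

/-- the block with its apex -/
abbrev BB (M D : ℕ) (K : ℝ) : Set (ℤ × ℤ) :=
  {p | 0 ≤ p.2 ∧ (K - M) * ((D : ℝ) - p.2) ≤ p.1 ∧ (p.1 : ℝ) ≤ K * ((D : ℝ) - p.2)}

/-- the conditions on the columns -/
def Col {L : Type*} [Field L] (M D m ν : ℕ) (K : ℝ) (g : (ℤ × ℤ) →₀ L) : Prop :=
  ∀ (c : ℤ) (k : ℕ), k ≤ m → K * ((D : ℝ) - k) - ((M + 1) * ((m : ℝ) - k) + ν) < c →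
    tau g c (dsc k) = 0

variable {M D m j b ν : ℕ} {K δ : ℝ}

theorem Hy.K0 (h : Hy M D m j b ν K δ) : 0 < K := by
  have h1 := h.hK1
  have h2 : (1 : ℝ) ≤ M := by exact_mod_cast h.hM
  linarith

theorem Hy.MK (h : Hy M D m j b ν K δ) : ((M : ℝ) + 1 - K) * (2 * K + 1) = K + 1 := by
  linear_combination -h.hK

theorem Hy.δh (h : Hy M D m j b ν K δ) : δ < 1 / 2 := by
  have h0 := h.K0
  have h1 := h.δ2
  have hν : (0 : ℝ) ≤ ν := Nat.cast_nonneg ν
  by_contra hcon
  push Not at hcon
  have : 1 / 2 * (2 * K + 2) ≤ δ * (2 * K + 2) := mul_le_mul_of_nonneg_right hcon (by linarith)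
  linarith

theorem Hy.jK (h : Hy M D m j b ν K δ) : (j : ℝ) + ν + δ < K := by
  have h0 := h.K0
  have h1 := h.hj
  have h2 : (j : ℝ) + ν ≤ M := by exact_mod_cast h.jM
  have hν : (0 : ℝ) ≤ ν := Nat.cast_nonneg ν
  have h3 : (K - M) * (2 * K + 1) = M + (K - M) := by linear_combination h.hK
  have h4 := h.hK1
  have h5 : δ * (2 * K + 1) < (K - M) * (2 * K + 1) := by rw [h3]; linarith
  have h6 := lt_of_mul_lt_mul_right h5 (by linarith)
  linarith

/-- points of the block -/
theorem BB_pos (h : Hy M D m j b ν K δ) {p : ℤ × ℤ} (hp : p ∈ BB M D K) :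
    0 ≤ p.1 ∧ p.2 ≤ D ∧ (p.1 = 0 → p.2 = D) := by
  obtain ⟨h1, h2, h3⟩ := hp
  have hK := h.K0
  have hKM : 0 < K - M := by linarith [h.hK1]
  have hM : (0 : ℝ) < M := by exact_mod_cast h.hM
  have h4 : 0 ≤ (M : ℝ) * ((D : ℝ) - p.2) := by linarith
  have h5 : 0 ≤ (D : ℝ) - p.2 := nonneg_of_mul_nonneg_right h4 hM
  have h6 : (0 : ℝ) ≤ p.1 := le_trans (mul_nonneg hKM.le h5) h2
  have h7 : p.2 ≤ D := by
    have : (p.2 : ℝ) ≤ D := by linarith
    exact_mod_cast this
  refine ⟨by exact_mod_cast h6, h7, fun h8 => ?_⟩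
  rw [h8] at h2
  have h9 : (D : ℝ) - p.2 ≤ 0 := by
    by_contra hcon
    push Not at hcon
    have := mul_pos hKM hcon
    simp at h2
    linarith
  have h10 : (D : ℝ) = p.2 := by linarith
  have : (D : ℤ) = p.2 := by exact_mod_cast h10
  omega

/-- the right columns -/
theorem low_row (h : Hy M D m j b ν K δ) {c : ℤ} {y : ℤ}
    (hc : ¬ K * ((D : ℝ) - y) - ((M + 1) * ((m : ℝ) - y) + ν) < c) :
    (K + 1) * ((m : ℝ) - y) ≤ (2 * K + 1) * (m - c + δ) := by
  have hK := h.K0
  push Not at hc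
  have h1 : (c : ℝ) ≤ m + δ - (M + 1 - K) * (m - y) := by
    have := h.hδ
    linarith
  have h2 := mul_le_mul_of_nonneg_right h1 (show 0 ≤ 2 * K + 1 by linarith)
  have h3 := h.MK
  have h4 : (m + δ - (M + 1 - K) * (m - y)) * (2 * K + 1) =
      (m + δ) * (2 * K + 1) - (K + 1) * ((m : ℝ) - y) := by
    linear_combination (-((m : ℝ) - y)) * h3
  rw [h4] at h2
  linarith

section coeffs

theorem coeff_ratCast_mul (q : ℚ) (u : LaurentSeries ℚ) (n : ℤ) :
    ((q : LaurentSeries ℚ) * u).coeff n = q * u.coeff n := by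
  have : (q : LaurentSeries ℚ) = cst q := by
    have h := map_ratCast (HahnSeries.C : ℚ →+* LaurentSeries ℚ) q
    rw [Rat.cast_id] at h
    exact h.symm
  rw [this, coeff_cst_mul]

theorem dsc_cast {L : Type*} [Field L] [CharZero L] (k : ℕ) (b : ℤ) :
    dsc k ((b : ℤ) : L) = ((dsc k ((b : ℤ) : ℚ) : ℚ) : L) := by
  unfold dsc
  push_cast
  rfl

theorem dsc_self (k : ℕ) : dsc k (((k : ℕ) : ℤ) : ℚ) ≠ 0 := by
  unfold dsc
  rw [prod_ne_zero_iff]
  intro t ht
  rw [mem_range] at ht
  rw [sub_ne_zero]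
  push_cast
  exact_mod_cast (by omega : k ≠ t)

end coeffs

/-- the multiplier -/
def Mu (j n : ℕ) (c : ℤ) : ℚ := ∏ t ∈ range n, ((c : ℚ) - ((j : ℚ) + 1 + t))

theorem Mu_ne {j n : ℕ} {c : ℤ} (h : Mu j n c ≠ 0) : c ≤ j ∨ (j : ℤ) + 1 + n ≤ c := by
  by_contra hcon
  push Not at hcon
  apply h
  unfold Mu
  obtain ⟨t, ht⟩ := Int.eq_ofNat_of_zero_le (show 0 ≤ c - j - 1 by omega)
  refine prod_eq_zero (mem_range.2 (show t < n by omega)) ?_
  have : c = j + 1 + t := by omega
  rw [this]
  push_cast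
  ring

theorem Mu_zero (j n : ℕ) : Mu j n 0 ≠ 0 := by
  intro h
  unfold Mu at h
  rw [prod_eq_zero_iff] at h
  obtain ⟨t, -, ht⟩ := h
  push_cast at ht
  have : (0 : ℚ) < (j : ℚ) + 1 + t := by positivity
  linarith

/-- the last point near infinity: the coefficient at the apex vanishes -/
theorem stepA (h : Hy M D m j b ν K δ) {g : (ℤ × ℤ) →₀ LaurentSeries ℚ}
    (hg : (↑g.support : Set (ℤ × ℤ)) ⊆ BB M D K) (hL : LM g 1 (tv ℚ)⁻¹ m)
    (hcol : Col M D m ν K g) : g (0, (D : ℤ)) = 0 := by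
  classical
  by_contra hne
  have hK0 := h.K0
  have htv : tv ℚ ≠ 0 := tv_ne
  have hjm := h.jm
  obtain ⟨N, hN⟩ : ∃ N, m = N + 2 * j := ⟨m - 2 * j, by omega⟩
  have hN1 : 1 ≤ N := by omega
  -- the modified polynomial
  let g2 : (ℤ × ℤ) →₀ LaurentSeries ℚ := Finsupp.onFinset g.support
    (fun p => ((Mu j (N - 1) p.1 : ℚ) : LaurentSeries ℚ) * g p * tv ℚ ^ (-p.2)) (fun p hp => by
      rw [Finsupp.mem_support_iff]
      intro h
      apply hp
      rw [h]; simp)
  have hg2a : ∀ p, g2 p = ((Mu j (N - 1) p.1 : ℚ) : LaurentSeries ℚ) * g p * tv ℚ ^ (-p.2) :=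
    fun p => rfl
  have hg2s : g2.support ⊆ g.support := Finsupp.support_onFinset_subset
  have hL2 : LM g2 1 1 (2 * j + 1) := by
    intro P hP
    have h1 := PF_prod (N - 1) (fun t => -((j : LaurentSeries ℚ) + 1 + t)) (fun _ => 1) (fun _ => 0) hP
    have h2 := hL _ (PF_mono (show 2 * j + 1 + (N - 1) ≤ m by omega) h1)
    rw [← h2]
    unfold pr
    rw [Finsupp.sum_of_support_subset g2 hg2s _ (by simp)]
    unfold Finsupp.sum
    refine sum_congr rfl fun p _ => ?_
    rw [hg2a]
    unfold Mu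
    push_cast
    simp only [one_zpow, mul_one, one_mul, zero_mul, add_zero, inv_zpow, zpow_neg]
    have e : ∏ t ∈ range (N - 1), (-((j : LaurentSeries ℚ) + 1 + (t : LaurentSeries ℚ)) + (p.1 : LaurentSeries ℚ)) =
        ∏ t ∈ range (N - 1), ((p.1 : LaurentSeries ℚ) - ((j : LaurentSeries ℚ) + 1 + (t : LaurentSeries ℚ))) :=
      prod_congr rfl fun t _ => by ring
    rw [e]
    ring
  have hg20 : g2 ≠ 0 := by
    intro h0
    have h1 := DFunLike.congr_fun h0 ((0 : ℤ), (D : ℤ))
    rw [hg2a] at h1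
    simp only [Finsupp.coe_zero, Pi.zero_apply] at h1
    have h2 : ((Mu j (N - 1) 0 : ℚ) : LaurentSeries ℚ) ≠ 0 := by
      exact_mod_cast Mu_zero j (N - 1)
    exact mul_ne_zero (mul_ne_zero h2 hne) (zpow_ne_zero _ htv) h1
  obtain ⟨n, hn1, hn2, -⟩ := exists_lead hg20
  obtain ⟨g3, hg3⟩ : ∃ g3 : (ℤ × ℤ) →₀ ℚ, g3 = g2.mapRange (fun u => u.coeff n) rfl := ⟨_, rfl⟩
  have hg3a : ∀ p, g3 p = (g2 p).coeff n := by
    intro p; rw [hg3, Finsupp.mapRange_apply]
  rw [← hg3] at hn1
  have hL3 : LM g3 1 1 (2 * j + 1) := by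
    rw [hg3]
    apply LM_coeff
    have e : (cst (1 : ℚ) : LaurentSeries ℚ) = 1 := map_one _
    rw [e]
    exact hL2
  -- the support of `g3`
  have c1 : ∀ p, g3 p ≠ 0 → p ∈ BB M D K ∧ Mu j (N - 1) p.1 ≠ 0 := by
    intro p hp
    have h1 : g2 p ≠ 0 := by
      intro h0
      rw [hg3a, h0] at hp
      simp at hp
    rw [hg2a] at h1
    refine ⟨hg (Finsupp.mem_support_iff.2 (right_ne_zero_of_mul (left_ne_zero_of_mul h1))), ?_⟩
    intro h0
    apply h1
    rw [h0]; simp
  have c2 : ∀ (c : ℤ) (k : ℕ), k ≤ m → K * ((D : ℝ) - k) - ((M + 1) * ((m : ℝ) - k) + ν) < c →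
      g3 (c, (k : ℤ)) = 0 := by
    intro c k hk hck
    have h1 := hcol c k hk hck
    rw [tau_eq_sum] at h1
    have h2 : ((Mu j (N - 1) c : ℚ) : LaurentSeries ℚ) *
        ∑ p ∈ g.support with p.1 = c, g p * dsc k ((p.2 : ℤ) : LaurentSeries ℚ) =
        ∑ p ∈ g.support with p.1 = c, ((dsc k ((p.2 : ℤ) : ℚ) : ℚ) : LaurentSeries ℚ) *
          (g2 p * tv ℚ ^ p.2) := by
      rw [mul_sum]
      refine sum_congr rfl fun p hp => ?_
      rw [mem_filter] at hp
      rw [hg2a, ← hp.2, dsc_cast, zpow_neg]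
      have h3 := zpow_ne_zero p.2 htv
      field_simp
    rw [h1, mul_zero] at h2
    have h4 := congrArg (fun u : LaurentSeries ℚ => u.coeff (n + k)) h2
    simp only [HahnSeries.coeff_zero, HahnSeries.coeff_sum, coeff_ratCast_mul, coeff_tv] at h4
    by_cases h5 : ((c, (k : ℤ)) : ℤ × ℤ) ∈ g.support
    · rw [sum_eq_single ((c, (k : ℤ)) : ℤ × ℤ)] at h4
      · rw [hg3a]
        simp only [add_sub_cancel_right] at h4
        exact (mul_eq_zero.1 h4.symm).resolve_left (dsc_self k)
      · intro p hp hp2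
        rw [mem_filter] at hp
        have h6 : p.2 ≠ k := fun h7 => hp2 (Prod.ext hp.2 h7)
        have h8 : 0 ≤ p.2 := (hg hp.1).1
        rcases lt_or_gt_of_ne h6 with h9 | h9
        · rw [dsc_eq_zero_of_lt h8 h9, zero_mul]
        · rw [hn2 p _ (by omega), mul_zero]
      · intro h6
        exfalso
        apply h6
        rw [mem_filter]
        exact ⟨h5, rfl⟩
    · rw [hg3a, hg2a, Finsupp.notMem_support_iff.1 h5]
      simp
  have hν0 : (0 : ℝ) ≤ ν := Nat.cast_nonneg ν
  have hjK := h.jK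
  have hδ0 := h.δ0
  have hδ2 := h.δh
  have hKM : 0 < K - M := by linarith [h.hK1]
  have c3 : ∀ p, g3 p ≠ 0 → p ∈ T1 D m j ∨ p = (0, (D : ℤ)) := by
    rintro ⟨t, y⟩ hp
    obtain ⟨h1, h2⟩ := c1 _ hp
    obtain ⟨h3, h4, h5⟩ := BB_pos h h1
    obtain ⟨h6, h7, h8⟩ := h1
    simp only at h2 h3 h4 h5 h6 h7 h8
    rcases Mu_ne h2 with h9 | h9
    · rcases eq_or_lt_of_le h3 with h10 | h10
      · right
        rw [Prod.mk.injEq]
        exact ⟨h10.symm, h5 h10.symm⟩
      · left
        left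
        have hDy : 0 < (D : ℝ) - y := by
          have h11 : (0 : ℝ) < t := by exact_mod_cast h10
          have h12 : 0 < K * ((D : ℝ) - y) := lt_of_lt_of_le h11 h8
          exact (mul_pos_iff_of_pos_left hK0).1 h12
        have hDy' : y < D := by
          have : (y : ℝ) < D := by linarith
          exact_mod_cast this
        refine ⟨by simp only; omega, h9, by simp only; omega, ?_⟩
        simp only
        by_contra hcon
        push Not at hcon
        have h13 : 2 * t + 1 ≤ (D : ℤ) - y := by omega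
        have h14 : 2 * (t : ℝ) + 1 ≤ (D : ℝ) - y := by exact_mod_cast h13
        have h15 : (K - M) * (2 * t + 1) ≤ t :=
          le_trans (mul_le_mul_of_nonneg_left h14 hKM.le) h7
        have h16 := mul_le_mul_of_nonneg_left h15 hK0.le
        have h17 : K * ((K - M) * (2 * t + 1)) = M * t + K * (K - M) := by
          linear_combination (t : ℝ) * h.hK
        rw [h17] at h16
        have h18 : (K - M) * K ≤ (K - M) * t := by linarith
        have h19 := le_of_mul_le_mul_left h18 hKM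
        have h20 : (t : ℝ) ≤ j := by exact_mod_cast h9
        linarith
    · left
      right
      have h10 : (m : ℤ) - j ≤ t := by omega
      have h10R : (m : ℝ) - j ≤ t := by exact_mod_cast h10
      have hup : K * ((y : ℝ) - m) ≤ (m : ℝ) - t + δ + ν := by
        have := h.hδ
        linarith
      have hym : y ≤ m := by
        by_contra hcon
        push Not at hcon
        have h11 : (m : ℝ) + 1 ≤ y := by exact_mod_cast hcon
        have h12 : K * 1 ≤ K * ((y : ℝ) - m) := mul_le_mul_of_nonneg_left (by linarith) hK0.le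
        linarith
      have h12 : (K + 1) * ((m : ℝ) - y) ≤ (2 * K + 1) * (m - t + δ) := by
        apply low_row h
        intro h12
        apply hp
        obtain ⟨k, rfl⟩ := Int.eq_ofNat_of_zero_le h6
        exact c2 t k (by exact_mod_cast hym) (by exact_mod_cast h12)
      have hymR : (y : ℝ) ≤ m := by exact_mod_cast hym
      have htm : t ≤ m := by
        by_contra hcon
        push Not at hcon
        have h11 : (m : ℝ) + 1 ≤ t := by exact_mod_cast hcon
        have h15 : 0 ≤ (K + 1) * ((m : ℝ) - y) := mul_nonneg (by linarith) (by linarith)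
        have h16 : (2 * K + 1) * ((m : ℝ) - t + δ) < 0 :=
          mul_neg_of_pos_of_neg (by linarith) (by linarith)
        linarith
      refine ⟨h10, htm, ?_, hym, ?_⟩
      · simp only
        by_contra hcon
        push Not at hcon
        have h13 : 2 * ((m : ℤ) - t) + 1 ≤ m - y := by omega
        have h14 : 2 * ((m : ℝ) - t) + 1 ≤ m - y := by exact_mod_cast h13
        have h15 : (K + 1) * (2 * ((m : ℝ) - t) + 1) ≤ (K + 1) * (m - y) :=
          mul_le_mul_of_nonneg_left h14 (by linarith)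
        have h16 : (t : ℝ) ≤ m := by exact_mod_cast htm
        nlinarith
      · simp only
        intro h20
        by_contra hcon
        push Not at hcon
        have hj0 : 0 < j := by
          rcases Nat.eq_zero_or_pos j with h0 | h0
          · exfalso
            have := h.hj
            rw [h0] at this
            have h21 : 0 ≤ δ * (2 * K + 1) := mul_nonneg hδ0 (by linarith)
            simp at this
            linarith
          · exact h0
        have h13 : 2 * (j : ℤ) ≤ m - y := by omega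
        have h14 : 2 * (j : ℝ) ≤ m - y := by exact_mod_cast h13
        have h15 : (K + 1) * (2 * (j : ℝ)) ≤ (K + 1) * (m - y) :=
          mul_le_mul_of_nonneg_left h14 (by linarith)
        have h16 : (t : ℝ) = m - j := by exact_mod_cast h20
        rw [h16] at h12
        have h17 := h.hj
        nlinarith
  -- the functional
  have c4 : g3 (0, (D : ℤ)) = 0 := by
    have h1 := hL3 _ (PP_PF b j N (D : ℚ))
    unfold pr Finsupp.sum at h1
    by_contra hne3
    have hz : ∀ p ∈ g3.support, p ≠ ((0 : ℤ), (D : ℤ)) →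
        g3 p * PP b j N ((p.1 : ℤ) : ℚ) ((D : ℚ) - ((p.2 : ℤ) : ℚ)) * (1 ^ p.1 * 1 ^ p.2) = 0 := by
      rintro ⟨t, y⟩ hp hp2
      rcases c3 _ (Finsupp.mem_support_iff.1 hp) with h2 | h2
      · have h3 : PP b j N (t : ℚ) ((D : ℚ) - (y : ℚ)) = 0 := by
          rcases h2 with ⟨a1, a2, a3, a4⟩ | ⟨a1, a2, a3, a4, a5⟩
          · simp only at a1 a2 a3 a4
            obtain ⟨t', rfl⟩ := Int.eq_ofNat_of_zero_le (show 0 ≤ t by omega)
            obtain ⟨k', hk'⟩ := Int.eq_ofNat_of_zero_le (show 0 ≤ (D : ℤ) - y by omega)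
            have e : (D : ℚ) - (y : ℚ) = (k' : ℚ) := by
              have : (((D : ℤ) - y : ℤ) : ℚ) = ((k' : ℤ) : ℚ) := by rw [hk']
              push_cast at this
              exact this
            rw [e]
            exact_mod_cast PP_left (b := b) (N := N) (t := t') (k := k') (j := j) (by omega) (by omega)
              (by omega) (by omega)
          · simp only at a1 a2 a3 a4 a5
            obtain ⟨s, hs⟩ := Int.eq_ofNat_of_zero_le (show 0 ≤ t - ((m : ℤ) - j) by omega)
            obtain ⟨κ, hκ⟩ := Int.eq_ofNat_of_zero_le (show 0 ≤ (m : ℤ) - y by omega)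
            have hD := h.hD
            have e1 : (t : ℚ) = (j : ℚ) + N + s := by
              have : t = j + N + s := by omega
              rw [this]; push_cast; ring
            have e2 : (D : ℚ) - (y : ℚ) = (b : ℚ) + 1 + κ := by
              have : (D : ℤ) - y = b + 1 + κ := by omega
              have h5 : (((D : ℤ) - y : ℤ) : ℚ) = ((b + 1 + κ : ℤ) : ℚ) := by rw [this]
              push_cast at h5
              exact h5
            rw [e1, e2]
            refine PP_right h.hb hN1 (by omega) (by omega) ?_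
            rcases Nat.eq_zero_or_pos s with h0 | h0
            · have := a5 (by omega)
              omega
            · omega
        simp only
        rw [h3]
        simp
      · exact absurd h2 hp2
    rw [sum_eq_single ((0 : ℤ), (D : ℤ)) hz (fun h2 => absurd (Finsupp.mem_support_iff.2 hne3) h2)] at h1
    simp only [Int.cast_zero, Int.cast_natCast, sub_self, zpow_zero, one_zpow, mul_one] at h1
    rw [PP_apex] at h1
    rcases mul_eq_zero.1 h1 with h2 | h2
    · exact hne3 h2
    · apply h.hS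
      have e : m - 2 * j = N := by omega
      rw [e]
      exact h2
  apply hn1
  refine of_Emp (Emp_T1 (D := D) h.jm) (fun p hp => ?_) hL3
  rcases c3 p (Finsupp.mem_support_iff.1 hp) with h2 | h2
  · exact h2
  · exfalso
    rw [h2] at hp
    exact Finsupp.mem_support_iff.1 hp c4

end Pool.Agent.N135.QT
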