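import Pool.Agent.N135.QT.StepB

set_option autoImplicit false

/-!
# The block with its apex is empty
-/

namespace Pool.Agent.N135.QT

open Finset Pool.Agent.TH176.Nag
open Pool.Agent.TH978.S13 (dsc tau tau_eq_sum tau_sub_smul tau_eq_zero)

section embed

open Polynomial

theorem coeff_eval (p : ℚ[X]) {s : ℤ} (hs : s ≠ 0) (n : ℕ) :
    (p.eval₂ (HahnSeries.C : ℚ →+* LaurentSeries ℚ) (tv ℚ ^ s)).coeff (s * n) = p.coeff n := by
  rw [eval₂_eq_sum_range, HahnSeries.coeff_sum]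
  have h1 : ∀ i ∈ range (p.natDegree + 1), ((HahnSeries.C (p.coeff i) : LaurentSeries ℚ) *
      (tv ℚ ^ s) ^ i).coeff (s * n) = if i = n then p.coeff n else 0 := by
    intro i _
    rw [← zpow_natCast, ← zpow_mul, coeff_tv, HahnSeries.C_apply, HahnSeries.coeff_single]
    split_ifs with h2 h3 h3
    · rw [h3]
    · exfalso
      have : s * ((n : ℤ) - i) = 0 := by linarith
      rcases mul_eq_zero.1 this with h4 | h4
      · exact hs h4
      · omega
    · exfalso
      apply h2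
      rw [h3]; ring
    · rfl
  rw [sum_congr rfl h1, Finset.sum_ite_eq' (range (p.natDegree + 1)) n]
  split_ifs with h2
  · rfl
  · rw [mem_range, not_lt] at h2
    rw [coeff_eq_zero_of_natDegree_lt (by omega)]

theorem inj_eval {s : ℤ} (hs : s ≠ 0) :
    Function.Injective (Polynomial.eval₂RingHom (HahnSeries.C : ℚ →+* LaurentSeries ℚ) (tv ℚ ^ s)) := by
  rw [injective_iff_map_eq_zero]
  intro p hp
  ext n
  rw [← coeff_eval p hs n]
  have : p.eval₂ (HahnSeries.C : ℚ →+* LaurentSeries ℚ) (tv ℚ ^ s) = 0 := hp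
  rw [this]
  simp

theorem inj_eval' :
    Function.Injective (Polynomial.eval₂RingHom (HahnSeries.C : ℚ →+* LaurentSeries ℚ) (1 + tv ℚ)) := by
  rw [injective_iff_map_eq_zero]
  intro p hp
  have h1 : (p.comp (X + 1)).eval₂ (HahnSeries.C : ℚ →+* LaurentSeries ℚ) (tv ℚ ^ (1 : ℤ)) = 0 := by
    have h2 : p.eval₂ (HahnSeries.C : ℚ →+* LaurentSeries ℚ) (1 + tv ℚ) = 0 := hp
    rw [eval₂_comp]
    simp only [eval₂_add, eval₂_X, eval₂_one, zpow_one]
    rw [add_comm, h2]
  have h3 : p.comp (X + 1) = 0 := inj_eval (s := 1) one_ne_zero (by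
    rw [map_zero]; exact h1)
  have h4 : taylor (1 : ℚ) p = 0 := by
    rw [taylor_apply, map_one]
    exact h3
  exact taylor_injective (1 : ℚ) (by rw [h4, map_zero])

theorem emb {u : LaurentSeries ℚ}
    (hu : Function.Injective (Polynomial.eval₂RingHom (HahnSeries.C : ℚ →+* LaurentSeries ℚ) u)) :
    ∃ φ : RatFunc ℚ →+* LaurentSeries ℚ, φ RatFunc.X = u := by
  refine ⟨IsFractionRing.lift (A := ℚ[X]) hu, ?_⟩
  rw [← RatFunc.algebraMap_X, IsFractionRing.lift_algebraMap]
  simp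

end embed

section maps

variable {F L : Type} [Field F] [Field L]

theorem LM_map (φ : F →+* L) {f : (ℤ × ℤ) →₀ F} {x y : F} {w : ℕ} (h : LM f x y w) :
    LM (f.mapRange φ (map_zero φ)) (φ x) (φ y) w := by
  refine LM_of_mono fun a b hab => ?_
  have h1 := h _ (mem_PF_mono hab)
  unfold pr at h1 ⊢
  rw [Finsupp.sum_mapRange_index (by simp)]
  have h2 := congrArg φ h1
  rw [map_zero] at h2
  rw [← h2]
  unfold Finsupp.sum
  rw [map_sum]
  refine sum_congr rfl fun p _ => ?_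
  simp only [map_mul, map_pow, map_zpow₀, map_intCast]

theorem tau_map (φ : F →+* L) (f : (ℤ × ℤ) →₀ F) (c : ℤ) (k : ℕ) :
    tau (f.mapRange φ (map_zero φ)) c (dsc k) = φ (tau f c (dsc k)) := by
  unfold tau
  rw [Finsupp.sum_mapRange_index (by intro p; simp)]
  unfold Finsupp.sum
  rw [map_sum]
  refine sum_congr rfl fun p _ => ?_
  beta_reduce
  split_ifs with h
  · rw [map_mul]
    congr 1
    unfold dsc
    rw [map_prod]
    refine prod_congr rfl fun t _ => ?_
    rw [map_sub, map_intCast, map_natCast]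
  · rw [map_zero]

theorem tau_congr {f g : (ℤ × ℤ) →₀ F} {c : ℤ} (h : ∀ b, f (c, b) = g (c, b))
    (Q : F → F) : tau f c Q = tau g c Q := by
  have h1 := tau_sub_smul f g 1 c Q
  rw [one_mul] at h1
  rw [← sub_eq_zero, ← h1]
  apply tau_eq_zero
  intro b hb
  exfalso
  apply hb
  rw [Finsupp.sub_apply, Finsupp.smul_apply, h b]
  simp

end maps

/-- **the block of `M + 2` points with its apex is empty** -/
theorem Emp_BB {M D m j b ν : ℕ} {K δ : ℝ} (h : Hy M D m j b ν K δ) (w : Fin (M + 1) → ℕ)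
    (hw : ∀ k ≤ m, (M + 1) * (m - k) + ν ≤ ∑ i, (w i - k)) :
    Emp (Sum.elim w (fun _ : Fin 1 => m)) (BB M D K) := by
  classical
  have hK0 := h.K0
  have htv : tv (RatFunc ℚ) ≠ 0 := tv_ne
  have hcst : ∀ a : RatFunc ℚ, a ≠ 0 → (cst a : LaurentSeries (RatFunc ℚ)) ≠ 0 := by
    intro a ha h
    have h2 : (HahnSeries.C : RatFunc ℚ →+* LaurentSeries (RatFunc ℚ)) a =
        (HahnSeries.C : RatFunc ℚ →+* LaurentSeries (RatFunc ℚ)) 0 := by
      rw [map_zero]; exact h
    exact ha (HahnSeries.C_injective h2)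
  refine ⟨LaurentSeries (RatFunc ℚ), inferInstance, charZero_laurent,
    Sum.elim (fun i => cst (((i : ℕ) : RatFunc ℚ) + 1)) (fun _ => tv (RatFunc ℚ) * cst (1 : RatFunc ℚ)),
    Sum.elim (fun _ => 1) (fun _ => cst RatFunc.X), ?_, ?_, ?_⟩
  · rintro (i | i)
    · simp only [Sum.elim_inl]
      refine hcst _ ?_
      exact_mod_cast Nat.succ_ne_zero (i : ℕ)
    · exact mul_ne_zero htv (hcst _ one_ne_zero)
  · rintro (i | i)
    · exact one_ne_zero
    · exact hcst _ RatFunc.X_ne_zero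
  intro f hfS hfL
  by_contra hf
  obtain ⟨g, hg, hgf, hgL, hgh⟩ := lead_form (m := m) (w := w)
    (fun i : Fin (M + 1) => ((i : ℕ) : RatFunc ℚ) + 1) 1 RatFunc.X hf
    (fun i => hfL (Sum.inl i)) (hfL (Sum.inr 0))
  have hgS : (↑g.support : Set (ℤ × ℤ)) ⊆ BB M D K := fun p hp => hfS (hgf hp)
  have hcol : Col M D m ν K g := by
    intro c k hk hck
    obtain ⟨q, hqf, hqL, hqc, hqg⟩ := hgh c
    rw [← tau_congr hqg]
    refine line_tau (fun i : Fin (M + 1) => ((i : ℕ) : RatFunc ℚ) + 1) ?_ ?_ hqL hqc ?_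
      (β := K * ((D : ℝ) - k)) ?_ ?_
    · intro i j hij
      simp only [add_left_inj, Nat.cast_inj] at hij
      exact Fin.ext hij
    · intro i
      exact_mod_cast Nat.succ_ne_zero (i : ℕ)
    · intro p hp
      exact (hfS (hqf hp)).1
    · intro p hp hkp
      have h1 := (hfS (hqf hp)).2.2
      have h2 : (k : ℝ) ≤ p.2 := by exact_mod_cast hkp
      have h3 : K * ((D : ℝ) - p.2) ≤ K * ((D : ℝ) - k) :=
        mul_le_mul_of_nonneg_left (by linarith) hK0.le
      linarith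
    · have h1 : ((M : ℝ) + 1) * (m - k) + ν ≤ ∑ i, ((w i - k : ℕ) : ℝ) := by
        have h2 : (((M + 1) * (m - k) + ν : ℕ) : ℝ) ≤ ((∑ i, (w i - k) : ℕ) : ℝ) := by
          exact_mod_cast hw k hk
        push_cast [Nat.cast_sub hk] at h2
        exact h2
      linarith
  -- first specialization
  obtain ⟨φ, hφ⟩ := emb (inj_eval (s := -1) (by norm_num))
  have hφi := φ.injective
  obtain ⟨ψ, hψ⟩ := emb inj_eval'
  have hψi := ψ.injective
  have key : ∀ (χ : RatFunc ℚ →+* LaurentSeries ℚ),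
      (↑(g.mapRange χ (map_zero χ)).support : Set (ℤ × ℤ)) ⊆ BB M D K ∧
      LM (g.mapRange χ (map_zero χ)) 1 (χ RatFunc.X) m ∧ Col M D m ν K (g.mapRange χ (map_zero χ)) := by
    intro χ
    refine ⟨fun p hp => hgS (Finsupp.support_mapRange hp), ?_, ?_⟩
    · have := LM_map χ hgL
      rwa [map_one] at this
    · intro c k hk hck
      rw [tau_map, hcol c k hk hck, map_zero]
  obtain ⟨k1, k2, k3⟩ := key φ
  rw [hφ, zpow_neg_one] at k2
  have hap := stepA h k1 k2 k3
  rw [Finsupp.mapRange_apply] at hap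
  have hap' : g (0, (D : ℤ)) = 0 := hφi (by rw [hap, map_zero])
  obtain ⟨l1, l2, l3⟩ := key ψ
  rw [hψ] at l2
  have hB := stepB h l1 l2 l3 (by rw [Finsupp.mapRange_apply, hap', map_zero])
  apply hg
  ext p
  have h1 := DFunLike.congr_fun hB p
  rw [Finsupp.mapRange_apply] at h1
  simp only [Finsupp.coe_zero, Pi.zero_apply] at h1 ⊢
  exact hψi (by rw [h1, map_zero])

end Pool.Agent.N135.QT
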