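import Pool.Agent.N135.QT.Near
import Pool.Agent.TH978.S13.Anti2
import Pool.Agent.TH469.SX.Fifteen

set_option autoImplicit false

/-!
# Anticanonical degrees, blocks of `M + 2` points
-/

namespace Pool.Agent.N135.QT

open Finset Pool.Agent.TH176.Nag Pool.Agent.TH603.Sur Pool.Agent.TH603.Cut Pool.Agent.H932R3
open Pool.Agent.TH864.SX (Fb Fa Slp)
open Pool.Agent.TH469.SX (Bo Fl)
open Pool.Agent.TH978.S13 (Sc Emp_shift Sur_shift Emp_add Sur_add Emp_units Sur_units Emp_plane9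
  Sur_plane9 Emp_equiv Sur_equiv KN slpN sqN)
open Pool.Agent.TH864.DP (bl wt3 Emp_copies Sur_copies eqf eqf_spec or_equiv)

/-- the numerical condition -/
def Good (M b D m : ℕ) : Prop :=
  (KN M * D - (KN M + 1) * m < b) ∨
    ((KN M * D - (KN M + 1) * m - b) * (2 * KN M + 1) < M - b ∧
      ¬ (M = 3 ∧ m = 10 ∧ D = 13 ∧ b = 0)) ∨
    b * (2 * KN M + 1) ≤ (2 * (KN M * D - (KN M + 1) * m) - 1) * (KN M + 1)

theorem near_bl2 {M b c : ℕ} (hM : 1 ≤ M) (hbc : b + c = M + 2) (hc : 0 < c) {m D : ℕ}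
    (hG : Good M b D m) :
    Emp (bl b c m) (BB M D (KN M)) ∨ Sur (bl b c m) (Sc (KN M - M) (KN M) D) := by
  classical
  obtain ⟨hS, hK1, hK2⟩ := slpN hM
  refine dich2 (m := m) (n1 := b) hS hK2 (by simp; omega) ?_ (Sum.inr ⟨0, hc⟩) rfl ?_ hG
  · rintro (i | i)
    · exact Or.inr rfl
    · exact Or.inl rfl
  · simp [bl, Fintype.sum_sum_type]

theorem near_anti2 {M r k b c : ℕ} (hM : 1 ≤ M) (hk : (r + 1) * M + k = 9) (hbc : b + c = M + 2)
    (hc : 0 < c) {h m : ℕ} (hG : Good M b h m) :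
    Emp (Sum.elim (fun p : Fin (r + 1) × (Fin b ⊕ Fin c) => bl b c m p.2) (fun _ : Fin k => h))
      (TZ (3 * h)) ∨
    Sur (Sum.elim (fun p : Fin (r + 1) × (Fin b ⊕ Fin c) => bl b c m p.2) (fun _ : Fin k => h))
      (TZ (3 * h)) := by
  obtain ⟨hS, hK1, hK2⟩ := slpN hM
  have hK0 := hS.K0
  obtain ⟨x, hx⟩ : ∃ x : ℝ, x = KN M - M := ⟨_, rfl⟩
  have hirr : Irrational x := by
    rw [hx]
    exact hS.irr.sub_natCast M
  have hx0 : 0 < x := by rw [hx]; linarith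
  have hx3 : x < 3 := by rw [hx]; linarith
  have hxM : x + M = KN M := by rw [hx]; ring
  have ha : 1 ≤ (r + 1) * M := Nat.mul_pos (Nat.succ_pos r) hM
  have h9 : x + (((r + 1) * M + k : ℕ) : ℝ) = x + 9 := by rw [hk]; push_cast; ring
  rcases near_bl2 hM hbc hc hG with hd' | hd'
  · left
    have h2 : Emp (bl b c m) (Sc x (x + M) h ∪ {((0, (h : ℤ)) : ℤ × ℤ)}) := by
      refine hd'.mono ?_
      rintro p (⟨g1, g2, g3⟩ | hp)
      · refine ⟨g1, ?_, ?_⟩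
        · rw [← hx]; exact g2.le
        · rw [← hxM]; exact g3.le
      · rw [Set.mem_singleton_iff] at hp
        rw [hp]
        refine ⟨by simp, ?_, ?_⟩ <;> simp
    have h3 := Emp_units ha hirr (Emp_copies hM hirr h2 r) k
    rw [h9] at h3
    exact Emp_plane9 hirr hx0 hx3 h3
  · right
    rw [← hx, ← hxM] at hd'
    have h3 := Sur_units ha hirr (Sur_copies hM hd' r) k
    rw [h9] at h3
    exact Sur_plane9 hirr hx0 hx3 h3

theorem joint2 {M r k b : ℕ} (hM : 1 ≤ M) (hr : 1 ≤ r) (hk : k + r * M = 9) (hb : b ≤ M + 1)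
    {D m : ℕ} (hG : Good M b D m) :
    Emp (wt3 (k + r * (M + 2)) k (r * b) D m) (TZ (3 * D)) ∨
    Sur (wt3 (k + r * (M + 2)) k (r * b) D m) (TZ (3 * D)) := by
  obtain ⟨r, rfl⟩ : ∃ r', r = r' + 1 := ⟨r - 1, by omega⟩
  obtain ⟨c, hc⟩ : ∃ c, b + c = M + 2 := ⟨M + 2 - b, by omega⟩
  have hn : k + ((r + 1) * b + (r + 1) * c) = k + (r + 1) * (M + 2) := by
    rw [← hc]; ring
  exact or_equiv (eqf (r + 1) b c k _ hn) (eqf_spec (r + 1) b c k _ hn D m)
    (near_anti2 hM (by rw [add_comm]; exact hk) hc (by omega) hG)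

/-- the square root of `M ^ 2 + 2 M` -/
noncomputable def sM (M : ℕ) : ℝ := √((M : ℝ) ^ 2 + 2 * M)

theorem KN_eq (M : ℕ) : KN M = (M + sM M) / 2 := by
  unfold KN sM
  congr 3
  push_cast
  ring

theorem sM_sq (M : ℕ) : sM M * sM M = (M : ℝ) ^ 2 + 2 * M :=
  Real.mul_self_sqrt (by positivity)

theorem sM_lt (M : ℕ) : sM M < M + 1 := by
  unfold sM
  rw [Real.sqrt_lt' (by positivity)]
  linarith

/-- the condition in closed form -/
theorem good_of {M b D m : ℕ}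
    (h : ((M + sM M) * D - (M + 2 + sM M) * m < 2 * b) ∨
      ((M + sM M) * D - (M + 2 + sM M) * m < 2 * b + 2 * ((M : ℝ) - b) * (M + 1 - sM M) ∧
        ¬ (M = 3 ∧ m = 10 ∧ D = 13 ∧ b = 0)) ∨
      ((M : ℝ) + 2) * (2 * m + 1) + 2 * b ≤ sM M * (2 * D + 1)) : Good M b D m := by
  have hs := sM_sq M
  have hlt := sM_lt M
  have hs0 : 0 ≤ sM M := Real.sqrt_nonneg _
  have hM0 : (0 : ℝ) ≤ M := Nat.cast_nonneg M
  obtain ⟨s, hs'⟩ : ∃ s, s = sM M := ⟨_, rfl⟩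
  unfold Good
  rw [KN_eq]
  rw [← hs'] at h hs hlt hs0 ⊢
  rcases h with h | ⟨h, h2⟩ | h
  · left
    linarith
  · right; left
    refine ⟨?_, h2⟩
    have h3 : ((M + s) / 2 * D - ((M + s) / 2 + 1) * m - b) < ((M : ℝ) - b) * (M + 1 - s) := by
      linarith
    have h4 : (0 : ℝ) < 2 * ((M + s) / 2) + 1 := by linarith
    have h5 := mul_lt_mul_of_pos_right h3 h4
    have h6 : ((M : ℝ) - b) * (M + 1 - s) * (2 * ((M + s) / 2) + 1) = M - b := by
      linear_combination (-((M : ℝ) - b)) * hs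
    rw [h6] at h5
    exact h5
  · right; right
    -- `b (M + 1 + s) ≤ ((M + s) D - (M + 2 + s) m - 1) (M + 2 + s) / 2`
    have h3 : 0 ≤ (s * (2 * D + 1) - (((M : ℝ) + 2) * (2 * m + 1) + 2 * b)) * (M + 1 + s) :=
      mul_nonneg (by linarith) (by linarith)
    have h4 : (2 * ((M + s) / 2 * D - ((M + s) / 2 + 1) * m) - 1) * ((M + s) / 2 + 1) -
        b * (2 * ((M + s) / 2) + 1) =
        (s * (2 * D + 1) - (((M : ℝ) + 2) * (2 * m + 1) + 2 * b)) * (M + 1 + s) / 2 := by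
      linear_combination (-(1 : ℝ) / 2 * (D + m + 1)) * hs
    linarith

end Pool.Agent.N135.QT
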