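import Mathlib

set_option autoImplicit false

/-!
# The functional which separates the apex

`PP b j N t k` is a polynomial of degree at most `2 j` in `(t, k)`. It vanishes for `1 ≤ t ≤ j`,
`1 ≤ k ≤ 2 t`, for `t = j + N + s`, `0 ≤ k - b - 1 ≤ 2 (j - s)`, `1 ≤ s ≤ j` and for `t = j + N`,
`0 ≤ k - b - 1 < 2 j`.
-/

namespace Pool.Agent.N135.QT

open Finset Polynomial

/-- rising factorial -/
def rs (x : ℚ) (i : ℕ) : ℚ := ∏ t ∈ range i, (x + t)

/-- binomial coefficient with arbitrary upper argument -/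
def ch (x : ℚ) (n : ℕ) : ℚ := (∏ t ∈ range n, (x - t)) / n.factorial

/-- the factor `b (b + l + 1) ⋯ (b + l + i - 1)` -/
def gam (b i l : ℕ) : ℚ := if i = 0 then 1 else b * ∏ t ∈ range (i - 1), ((b : ℚ) + l + 1 + t)

/-- the coefficients -/
def bet (b i l : ℕ) : ℚ := (i.choose l : ℚ) * 2 ^ (i - l) * (-1) ^ l * (gam b i l / i.factorial)

/-- the functional -/
def PP (b j N : ℕ) (t k : ℚ) : ℚ :=
  ∑ i ∈ range (2 * j + 1), rs (t - j) i / rs N i * (-1) ^ i *
    ∑ l ∈ range (i + 1), bet b i l * ch (k - 1 + l) (2 * j - i)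

theorem ch_nat (n k : ℕ) : ch n k = (n.choose k : ℚ) := by
  have hk : (k.factorial : ℚ) ≠ 0 := by exact_mod_cast k.factorial_ne_zero
  unfold ch
  rw [div_eq_iff hk]
  have h1 : (∏ t ∈ range k, ((n : ℚ) - (t : ℚ))) = (n.descFactorial k : ℚ) := by
    by_cases hkn : k ≤ n
    · rw [Nat.descFactorial_eq_prod_range]
      push_cast
      apply prod_congr rfl
      intro t ht
      rw [Nat.cast_sub (by have := mem_range.1 ht; omega)]
    · have h2 : n ∈ range k := mem_range.2 (by omega)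
      rw [prod_eq_zero h2 (by simp), Nat.descFactorial_eq_zero_iff_lt.2 (by omega)]
      simp
  rw [h1, Nat.descFactorial_eq_factorial_mul_choose]
  push_cast
  ring

theorem ch_neg_one (k : ℕ) : ch (-1) k = (-1) ^ k := by
  have hk : (k.factorial : ℚ) ≠ 0 := by exact_mod_cast k.factorial_ne_zero
  unfold ch
  rw [div_eq_iff hk]
  clear hk
  induction k with
  | zero => simp
  | succ k ih =>
    rw [prod_range_succ, ih, Nat.factorial_succ, pow_succ]
    push_cast
    ring

theorem rs_succ (x : ℚ) (i : ℕ) : rs x (i + 1) = rs x i * (x + i) := by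
  unfold rs; rw [prod_range_succ]

theorem rs_add (x : ℚ) (i s : ℕ) : rs x (i + s) = rs x i * rs (x + i) s := by
  unfold rs
  rw [prod_range_add]
  congr 1
  refine prod_congr rfl fun t _ => ?_
  push_cast
  ring

theorem rs_pos {x : ℚ} (hx : 0 < x) (i : ℕ) : 0 < rs x i := by
  unfold rs
  exact prod_pos fun t _ => by positivity

theorem rs_div {N : ℕ} (hN : 1 ≤ N) (s i : ℕ) : rs (N + s) i / rs N i = rs (N + i) s / rs N s := by
  have hN' : (0 : ℚ) < N := by exact_mod_cast hN
  rw [div_eq_div_iff (rs_pos hN' i).ne' (rs_pos hN' s).ne']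
  have h1 := rs_add N i s
  have h2 := rs_add N s i
  rw [add_comm i s] at h1
  rw [mul_comm, ← h2, h1]
  ring

theorem rs_neg {a i : ℕ} (h : a < i) : rs (-(a : ℚ)) i = 0 := by
  unfold rs
  exact prod_eq_zero (mem_range.2 h) (by simp)

/-- left vanishing -/
theorem PP_left {b j N t k : ℕ} (h1 : 1 ≤ t) (h2 : t ≤ j) (h3 : 1 ≤ k) (h4 : k ≤ 2 * t) :
    PP b j N t k = 0 := by
  unfold PP
  refine sum_eq_zero fun i hi => ?_
  rw [mem_range] at hi
  rcases lt_or_ge (j - t) i with h | h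
  · have e : (t : ℚ) - j = -((j - t : ℕ) : ℚ) := by push_cast [Nat.cast_sub h2]; ring
    rw [e, rs_neg h]
    simp
  · rw [sum_eq_zero, mul_zero]
    intro l hl
    rw [mem_range] at hl
    have e : (k : ℚ) - 1 + l = ((k - 1 + l : ℕ) : ℚ) := by push_cast [Nat.cast_sub h3]; ring
    rw [e, ch_nat, Nat.choose_eq_zero_of_lt (by omega)]
    simp

/-- finite differences -/
theorem fd {Q : ℚ[X]} {n : ℕ} (hQ : Q.natDegree < n) :
    ∑ i ∈ range (n + 1), (-1 : ℚ) ^ i * (n.choose i : ℚ) * Q.eval (i : ℚ) = 0 := by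
  have h := congrFun (Polynomial.fwdDiff_iter_eq_zero_of_degree_lt hQ) (0 : ℚ)
  rw [fwdDiff_iter_eq_sum_shift] at h
  have h2 : ∑ i ∈ range (n + 1), (-1 : ℚ) ^ i * (n.choose i : ℚ) * Q.eval (i : ℚ) =
      (-1) ^ n * ∑ k ∈ range (n + 1), ((-1 : ℤ) ^ (n - k) * n.choose k) • Q.eval (0 + k • (1 : ℚ)) := by
    rw [mul_sum]
    refine sum_congr rfl fun i hi => ?_
    rw [mem_range] at hi
    rw [zsmul_eq_mul]
    push_cast
    have e : (-1 : ℚ) ^ n = (-1) ^ i * (-1) ^ (n - i) := by rw [← pow_add]; congr 1; omega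
    have e2 : (-1 : ℚ) ^ (n - i) * (-1) ^ (n - i) = 1 := by rw [← mul_pow]; simp
    rw [e]
    simp only [zero_add, nsmul_eq_mul, mul_one]
    linear_combination (-(-1 : ℚ) ^ i * (n.choose i : ℚ) * Q.eval (i : ℚ)) * e2
  rw [h2, h]
  simp

theorem gam_fact {b i l : ℕ} (hb : 1 ≤ b) (hl : l ≤ i) :
    gam b i l * (b + l).factorial = b * (b - 1 + i + l).factorial := by
  unfold gam
  split_ifs with h
  · subst h
    obtain rfl : l = 0 := by omega
    obtain ⟨b, rfl⟩ : ∃ c, b = c + 1 := ⟨b - 1, by omega⟩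
    simp only [add_zero, Nat.add_sub_cancel, Nat.factorial_succ]
    push_cast
    ring
  · obtain ⟨p, rfl⟩ : ∃ p, i = p + 1 := ⟨i - 1, by omega⟩
    have e : b - 1 + (p + 1) + l = b + l + p := by omega
    rw [e, Nat.add_sub_cancel]
    have h2 : ∀ p : ℕ, (∏ t ∈ range p, ((b : ℚ) + l + 1 + t)) * (b + l).factorial =
        (b + l + p).factorial := by
      intro p
      induction p with
      | zero => simp
      | succ p ih =>
        rw [prod_range_succ, ← add_assoc, Nat.factorial_succ, mul_right_comm, ih]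
        push_cast
        ring
    rw [mul_assoc, h2]

theorem gam_choose {b i l n : ℕ} (hb : 1 ≤ b) (hl : l ≤ i) (hi : i ≤ n) (hn : 1 ≤ n) :
    gam b i l / i.factorial * ((b + l).choose (n - i) : ℚ) =
      (b : ℚ) / n * (n.choose i : ℚ) * ((b - 1 + i + l).choose (n - 1) : ℚ) := by
  rcases lt_or_ge (b + l) (n - i) with h | h
  · rw [Nat.choose_eq_zero_of_lt h, Nat.choose_eq_zero_of_lt (show b - 1 + i + l < n - 1 by omega)]
    simp
  · have h1 := Nat.choose_mul_factorial_mul_factorial h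
    have h2 := Nat.choose_mul_factorial_mul_factorial (show n - 1 ≤ b - 1 + i + l by omega)
    have h3 := Nat.choose_mul_factorial_mul_factorial hi
    have e : b - 1 + i + l - (n - 1) = b + l - (n - i) := by omega
    rw [e] at h2
    have h4 := gam_fact (i := i) hb hl
    have h5 : (n.factorial : ℚ) = n * (n - 1).factorial := by
      obtain ⟨n, rfl⟩ : ∃ c, n = c + 1 := ⟨n - 1, by omega⟩
      rw [Nat.factorial_succ]; push_cast; simp
    have h1' : (((b + l).choose (n - i) : ℚ)) * (n - i).factorial * (b + l - (n - i)).factorial =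
      (b + l).factorial := by exact_mod_cast h1
    have h2' : (((b - 1 + i + l).choose (n - 1) : ℚ)) * (n - 1).factorial *
      (b + l - (n - i)).factorial = (b - 1 + i + l).factorial := by exact_mod_cast h2
    have h3' : ((n.choose i : ℚ)) * i.factorial * (n - i).factorial = n.factorial := by
      exact_mod_cast h3
    have f1 : ((n - i).factorial : ℚ) ≠ 0 := by exact_mod_cast (n - i).factorial_ne_zero
    have f2 : ((b + l - (n - i)).factorial : ℚ) ≠ 0 := by exact_mod_cast Nat.factorial_ne_zero _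
    have f3 : ((n - 1).factorial : ℚ) ≠ 0 := by exact_mod_cast Nat.factorial_ne_zero _
    have f4 : (i.factorial : ℚ) ≠ 0 := by exact_mod_cast Nat.factorial_ne_zero _
    have f5 : (n : ℚ) ≠ 0 := by positivity
    have f6 : ((b + l).factorial : ℚ) ≠ 0 := by exact_mod_cast Nat.factorial_ne_zero _
    rw [← h1'] at h4
    rw [← h2'] at h4
    rw [h5] at h3'
    -- h4 : gam * (C1 * (n-i)! * r!) = b * (C2 * (n-1)! * r!)
    have h6 : gam b i l * ((b + l).choose (n - i) : ℚ) * (n - i).factorial =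
        b * (((b - 1 + i + l).choose (n - 1) : ℚ) * (n - 1).factorial) := by
      apply mul_right_cancel₀ f2
      linear_combination h4
    rw [div_mul_eq_mul_div, div_mul_eq_mul_div, div_mul_eq_mul_div, div_eq_div_iff f4 f5]
    apply mul_right_cancel₀ f1
    apply mul_right_cancel₀ f3
    linear_combination (n : ℚ) * ((n - 1).factorial : ℚ) * h6 -
      (b : ℚ) * ((b - 1 + i + l).choose (n - 1) : ℚ) * ((n - 1).factorial : ℚ) * h3'

/-- two expansions of a coefficient -/
theorem two_exp {b : ℕ} (hb : 1 ≤ b) (i n : ℕ) :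
    ∑ l ∈ range (i + 1), (i.choose l : ℚ) * 2 ^ (i - l) * (-1) ^ l *
      ((b - 1 + i + l).choose n : ℚ) =
    ∑ c ∈ range (n / 2 + 1), (i.choose c : ℚ) * ((-1) ^ c * ((b - 1).choose (n - 2 * c) : ℚ)) := by
  have h1 : ((1 + X : ℚ[X]) ^ (b - 1) * (1 - X ^ 2) ^ i).coeff n =
      ∑ l ∈ range (i + 1), (i.choose l : ℚ) * 2 ^ (i - l) * (-1) ^ l *
      ((b - 1 + i + l).choose n : ℚ) := by
    have e : (1 - X ^ 2 : ℚ[X]) ^ i = (1 + X) ^ i * ∑ l ∈ range (i + 1),
        (-(1 + X)) ^ l * C 2 ^ (i - l) * (i.choose l : ℚ[X]) := by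
      rw [← add_pow, ← mul_pow]
      congr 1
      have : (C 2 : ℚ[X]) = 2 := map_ofNat C 2
      rw [this]
      ring
    rw [e, ← mul_assoc, ← pow_add, mul_sum, finsetSum_coeff]
    refine sum_congr rfl fun l _ => ?_
    have e2 : (1 + X : ℚ[X]) ^ (b - 1 + i) * ((-(1 + X)) ^ l * C 2 ^ (i - l) * (i.choose l : ℚ[X])) =
        C ((i.choose l : ℚ) * 2 ^ (i - l) * (-1) ^ l) * (1 + X) ^ (b - 1 + i + l) := by
      rw [neg_pow (1 + X : ℚ[X]), pow_add]
      simp only [map_mul, map_pow, map_neg, map_one, map_natCast]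
      ring
    rw [e2, coeff_C_mul, coeff_one_add_X_pow]
  have h2 : ((1 + X : ℚ[X]) ^ (b - 1) * (1 - X ^ 2) ^ i).coeff n =
      ∑ c ∈ range (n / 2 + 1), (i.choose c : ℚ) * ((-1) ^ c * ((b - 1).choose (n - 2 * c) : ℚ)) := by
    have e : (1 - X ^ 2 : ℚ[X]) ^ i = ∑ c ∈ range (i + 1),
        (-(X ^ 2)) ^ c * 1 ^ (i - c) * (i.choose c : ℚ[X]) := by
      rw [← add_pow]
      congr 1
      ring
    rw [e, mul_sum, finsetSum_coeff]
    have e3 : ∀ c ∈ range (i + 1), ((1 + X : ℚ[X]) ^ (b - 1) *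
        ((-(X ^ 2)) ^ c * 1 ^ (i - c) * (i.choose c : ℚ[X]))).coeff n =
        if 2 * c ≤ n then (i.choose c : ℚ) * ((-1) ^ c * ((b - 1).choose (n - 2 * c) : ℚ)) else 0 := by
      intro c _
      have e2 : (1 + X : ℚ[X]) ^ (b - 1) * ((-(X ^ 2)) ^ c * 1 ^ (i - c) * (i.choose c : ℚ[X])) =
          C ((i.choose c : ℚ) * (-1) ^ c) * (X ^ (2 * c) * (1 + X) ^ (b - 1)) := by
        rw [neg_pow (X ^ 2 : ℚ[X]), ← pow_mul]
        simp only [map_mul, map_pow, map_neg, map_one, map_natCast]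
        ring
      rw [e2, coeff_C_mul, coeff_X_pow_mul']
      split_ifs with h
      · rw [coeff_one_add_X_pow]; ring
      · rw [mul_zero]
    rw [sum_congr rfl e3]
    have e4 : ∑ c ∈ range (i + 1), (if 2 * c ≤ n then (i.choose c : ℚ) *
        ((-1) ^ c * ((b - 1).choose (n - 2 * c) : ℚ)) else 0) =
        ∑ c ∈ range (i + 1 + (n / 2 + 1)), (if 2 * c ≤ n then (i.choose c : ℚ) *
        ((-1) ^ c * ((b - 1).choose (n - 2 * c) : ℚ)) else 0) := by
      refine sum_subset (range_subset_range.2 (by omega)) fun c _ hc => ?_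
      rw [mem_range, not_lt] at hc
      rw [Nat.choose_eq_zero_of_lt (show i < c by omega)]
      simp
    rw [e4]
    have e5 : ∑ c ∈ range (n / 2 + 1), (i.choose c : ℚ) *
        ((-1) ^ c * ((b - 1).choose (n - 2 * c) : ℚ)) =
        ∑ c ∈ range (n / 2 + 1), (if 2 * c ≤ n then (i.choose c : ℚ) *
        ((-1) ^ c * ((b - 1).choose (n - 2 * c) : ℚ)) else 0) := by
      refine sum_congr rfl fun c hc => ?_
      rw [mem_range] at hc
      rw [if_pos (by omega)]
    rw [e5]
    symm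
    refine sum_subset (range_subset_range.2 (by omega)) fun c _ hc => ?_
    rw [mem_range, not_lt] at hc
    rw [if_neg (by omega)]
  rw [← h1, h2]

/-- the polynomial in `i` -/
noncomputable def Qi (b N s n : ℕ) : ℚ[X] :=
  (∏ t ∈ range s, (X + C ((N : ℚ) + t))) *
    ∑ c ∈ range (n / 2 + 1), C ((-1) ^ c * ((b - 1).choose (n - 2 * c) : ℚ) / c.factorial) *
      descPochhammer ℚ c

theorem Qi_eval (b N s n i : ℕ) : (Qi b N s n).eval (i : ℚ) = rs (N + i) s *
    ∑ c ∈ range (n / 2 + 1), (i.choose c : ℚ) * ((-1) ^ c * ((b - 1).choose (n - 2 * c) : ℚ)) := by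
  unfold Qi rs
  rw [eval_mul, eval_prod, eval_finsetSum]
  congr 1
  · refine prod_congr rfl fun t _ => ?_
    simp
    ring
  · refine sum_congr rfl fun c _ => ?_
    rw [eval_mul, eval_C, descPochhammer_eval_eq_descFactorial,
      Nat.descFactorial_eq_factorial_mul_choose]
    have hc : (c.factorial : ℚ) ≠ 0 := by exact_mod_cast c.factorial_ne_zero
    push_cast
    field_simp

theorem Qi_deg (b N s n : ℕ) : (Qi b N s n).natDegree ≤ s + n / 2 := by
  unfold Qi
  refine natDegree_mul_le.trans (add_le_add ?_ ?_)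
  · refine (natDegree_prod_le _ _).trans ?_
    refine (sum_le_sum fun t _ => natDegree_X_add_C _ |>.le).trans ?_
    simp
  · refine natDegree_sum_le_of_forall_le _ _ fun c hc => ?_
    rw [mem_range] at hc
    refine (natDegree_C_mul_le _ _).trans ?_
    rw [descPochhammer_natDegree]
    omega

theorem lam_zero {b N s n : ℕ} (hb : 1 ≤ b) (hN : 1 ≤ N) (hn : 1 ≤ n) (hs : 2 * s ≤ n) :
    ∑ i ∈ range (n + 1), rs (N + s) i / rs N i * (-1) ^ i *
      ∑ l ∈ range (i + 1), bet b i l * ((b + l).choose (n - i) : ℚ) = 0 := by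
  have h1 : ∀ i ∈ range (n + 1), rs (N + s) i / rs N i * (-1) ^ i *
      ∑ l ∈ range (i + 1), bet b i l * ((b + l).choose (n - i) : ℚ) =
      (b : ℚ) / n / rs N s * ((-1 : ℚ) ^ i * (n.choose i : ℚ) * (Qi b N s (n - 1)).eval (i : ℚ)) := by
    intro i hi
    rw [mem_range] at hi
    have h2 : ∑ l ∈ range (i + 1), bet b i l * ((b + l).choose (n - i) : ℚ) =
        (b : ℚ) / n * (n.choose i : ℚ) * ∑ l ∈ range (i + 1), (i.choose l : ℚ) * 2 ^ (i - l) *
          (-1) ^ l * ((b - 1 + i + l).choose (n - 1) : ℚ) := by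
      rw [mul_sum]
      refine sum_congr rfl fun l hl => ?_
      rw [mem_range] at hl
      have := gam_choose (b := b) (i := i) (l := l) (n := n) hb (by omega) (by omega) hn
      unfold bet
      linear_combination ((i.choose l : ℚ) * 2 ^ (i - l) * (-1) ^ l) * this
    rw [h2, two_exp hb, Qi_eval, rs_div hN]
    ring
  rw [sum_congr rfl h1, ← mul_sum, fd, mul_zero]
  have := Qi_deg b N s (n - 1)
  omega

theorem sum_shift (J i : ℕ) (hi : i ≤ J) (F : ℕ → ℚ) :
    ∑ v ∈ range (J - i + 1), F v = ∑ n ∈ range (J + 1), if i ≤ n then F (n - i) else 0 := by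
  rw [← sum_filter]
  have e : (range (J + 1)).filter (fun n => i ≤ n) = Ico i (J + 1) := by
    ext n
    simp only [mem_filter, mem_range, mem_Ico]
    omega
  rw [e, sum_Ico_eq_sum_range]
  have e2 : J + 1 - i = J - i + 1 := by omega
  rw [e2]
  refine sum_congr rfl fun v _ => ?_
  congr 1
  omega

/-- right vanishing -/
theorem PP_right {b j N s κ : ℕ} (hb : 1 ≤ b) (hN : 1 ≤ N) (hs : s ≤ j) (h1 : κ ≤ 2 * (j - s))
    (h2 : κ < 2 * j) : PP b j N ((j : ℚ) + N + s) ((b : ℚ) + 1 + κ) = 0 := by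
  unfold PP
  have e1 : (j : ℚ) + N + s - j = N + s := by ring
  rw [e1]
  have h3 : ∀ i ∈ range (2 * j + 1), ∑ l ∈ range (i + 1), bet b i l *
      ch ((b : ℚ) + 1 + κ - 1 + l) (2 * j - i) =
      ∑ n ∈ range (2 * j + 1), (κ.choose (2 * j - n) : ℚ) * if i ≤ n then
        ∑ l ∈ range (i + 1), bet b i l * ((b + l).choose (n - i) : ℚ) else 0 := by
    intro i hi
    rw [mem_range] at hi
    have h4 : ∀ l ∈ range (i + 1), bet b i l * ch ((b : ℚ) + 1 + κ - 1 + l) (2 * j - i) =
        ∑ n ∈ range (2 * j + 1), (κ.choose (2 * j - n) : ℚ) * if i ≤ n then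
          bet b i l * ((b + l).choose (n - i) : ℚ) else 0 := by
      intro l _
      have e2 : (b : ℚ) + 1 + κ - 1 + l = (((b + l) + κ : ℕ) : ℚ) := by push_cast; ring
      rw [e2, ch_nat, Nat.add_choose_eq, Nat.sum_antidiagonal_eq_sum_range_succ_mk]
      push_cast
      rw [Nat.succ_eq_add_one, sum_shift (2 * j) i (by omega)
        (fun v => ((b + l).choose v : ℚ) * (κ.choose (2 * j - i - v) : ℚ)), mul_sum]
      refine sum_congr rfl fun n hn => ?_
      split_ifs with h
      · have e3 : 2 * j - i - (n - i) = 2 * j - n := by omega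
        rw [e3]
        ring
      · simp
    rw [sum_congr rfl h4, sum_comm]
    refine sum_congr rfl fun n _ => ?_
    rw [← mul_sum]
    congr 1
    split_ifs with h
    · rfl
    · simp
  have h5 : ∑ i ∈ range (2 * j + 1), rs (N + s) i / rs N i * (-1) ^ i *
      ∑ l ∈ range (i + 1), bet b i l * ch ((b : ℚ) + 1 + κ - 1 + l) (2 * j - i) =
      ∑ n ∈ range (2 * j + 1), (κ.choose (2 * j - n) : ℚ) *
        ∑ i ∈ range (2 * j + 1), rs (N + s) i / rs N i * (-1) ^ i * if i ≤ n then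
          ∑ l ∈ range (i + 1), bet b i l * ((b + l).choose (n - i) : ℚ) else 0 := by
    have h6 : ∀ i ∈ range (2 * j + 1), rs (N + s) i / rs N i * (-1) ^ i *
        ∑ l ∈ range (i + 1), bet b i l * ch ((b : ℚ) + 1 + κ - 1 + l) (2 * j - i) =
        ∑ n ∈ range (2 * j + 1), (κ.choose (2 * j - n) : ℚ) * (rs (N + s) i / rs N i * (-1) ^ i *
          if i ≤ n then
          ∑ l ∈ range (i + 1), bet b i l * ((b + l).choose (n - i) : ℚ) else 0) := by
      intro i hi
      rw [h3 i hi, mul_sum]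
      refine sum_congr rfl fun n _ => ?_
      ring
    rw [sum_congr rfl h6, sum_comm]
    refine sum_congr rfl fun n _ => ?_
    rw [← mul_sum]
  rw [h5]
  refine sum_eq_zero fun n hn => ?_
  rw [mem_range] at hn
  rcases lt_or_ge κ (2 * j - n) with h | h
  · rw [Nat.choose_eq_zero_of_lt h]; simp
  · have h7 : ∑ i ∈ range (2 * j + 1), rs (N + s) i / rs N i * (-1) ^ i * (if i ≤ n then
          ∑ l ∈ range (i + 1), bet b i l * ((b + l).choose (n - i) : ℚ) else 0) =
        ∑ i ∈ range (n + 1), rs (N + s) i / rs N i * (-1) ^ i *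
          ∑ l ∈ range (i + 1), bet b i l * ((b + l).choose (n - i) : ℚ) := by
      symm
      have h8 : ∀ i ∈ range (n + 1), rs (N + s) i / rs N i * (-1) ^ i *
          ∑ l ∈ range (i + 1), bet b i l * ((b + l).choose (n - i) : ℚ) =
          rs (N + s) i / rs N i * (-1) ^ i * (if i ≤ n then
          ∑ l ∈ range (i + 1), bet b i l * ((b + l).choose (n - i) : ℚ) else 0) := by
        intro i hi
        rw [mem_range] at hi
        rw [if_pos (by omega)]
      rw [sum_congr rfl h8]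
      refine sum_subset (range_subset_range.2 (by omega)) fun i _ hi => ?_
      rw [mem_range, not_lt] at hi
      rw [if_neg (by omega), mul_zero]
    rw [h7, lam_zero hb hN (by omega) (by omega), mul_zero]

end Pool.Agent.N135.QT
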