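import Pool.Agent.N135.QT.Func
import Pool.Agent.TH176.Nag.Base

set_option autoImplicit false

/-!
# The value of the functional at the apex
-/

namespace Pool.Agent.N135.QT

open Finset Polynomial Pool.Agent.TH176.Nag

/-- products of affine functions -/
theorem PF_prod {K : Type*} [Field K] (n : ℕ) (c0 c1 c2 : ℕ → K) {w : ℕ} {P : K × K → K}
    (hP : P ∈ PF K w) :
    (fun u : K × K => (∏ t ∈ range n, (c0 t + c1 t * u.1 + c2 t * u.2)) * P u) ∈ PF K (w + n) := by
  induction n with
  | zero => simpa using hP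
  | succ n ih =>
    have := PF_mul_aff ih (c0 n) (c1 n) (c2 n)
    rw [← add_assoc]
    convert this using 2
    rw [prod_range_succ]; ring

theorem PP_PF (b j N : ℕ) (D : ℚ) :
    (fun u : ℚ × ℚ => PP b j N u.1 (D - u.2)) ∈ PF ℚ (2 * j + 1) := by
  have e : (fun u : ℚ × ℚ => PP b j N u.1 (D - u.2)) = ∑ i ∈ range (2 * j + 1),
      ∑ l ∈ range (i + 1), (fun u : ℚ × ℚ => (bet b i l / rs N i * (-1) ^ i) *
        (rs (u.1 - j) i * ch (D - u.2 - 1 + l) (2 * j - i))) := by
    funext u
    rw [Finset.sum_apply]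
    unfold PP
    refine sum_congr rfl fun i _ => ?_
    rw [Finset.sum_apply, mul_sum]
    refine sum_congr rfl fun l _ => ?_
    ring
  rw [e]
  refine (PF ℚ (2 * j + 1)).sum_mem fun i hi => (PF ℚ (2 * j + 1)).sum_mem fun l _ => ?_
  rw [mem_range] at hi
  have h1 := PF_prod (2 * j - i) (fun t => D - 1 + l - (t : ℚ)) (fun _ => 0) (fun _ => -1)
    (PF_const (K := ℚ) (((2 * j - i).factorial : ℚ)⁻¹) (w := 1) (by omega))
  have h2 := PF_prod i (fun t => (t : ℚ) - j) (fun _ => 1) (fun _ => 0) h1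
  have e3 : 1 + (2 * j - i) + i = 2 * j + 1 := by omega
  rw [e3] at h2
  have h3 := (PF ℚ (2 * j + 1)).smul_mem (bet b i l / rs N i * (-1) ^ i) h2
  convert h3 using 1
  funext u
  simp only [Pi.smul_apply, smul_eq_mul]
  unfold rs ch
  rw [div_eq_mul_inv (∏ t ∈ range (2 * j - i), (D - u.2 - 1 + (l : ℚ) - (t : ℚ)))]
  congr 1
  congr 1
  · refine prod_congr rfl fun t _ => ?_
    ring
  · congr 1
    refine prod_congr rfl fun t _ => ?_
    ring

/-- the value at the apex -/
def SS (b N j : ℕ) : ℚ := ∑ i ∈ range (j + 1), (j.choose i : ℚ) * (-2) ^ i * (rs b i / rs N i)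

theorem rs_neg' {j i : ℕ} (h : i ≤ j) : rs (-(j : ℚ)) i = (-1) ^ i * (i.factorial * (j.choose i : ℚ)) := by
  have h1 : rs (-(j : ℚ)) i = (-1) ^ i * (j.descFactorial i : ℚ) := by
    induction i with
    | zero => simp [rs]
    | succ i ih =>
      rw [rs_succ, ih (by omega), Nat.descFactorial_succ]
      push_cast [Nat.cast_sub (show i ≤ j by omega)]
      rw [pow_succ]
      ring
  rw [h1, Nat.descFactorial_eq_factorial_mul_choose]
  push_cast
  ring

theorem gam_zero (b i : ℕ) (hi : 1 ≤ i) : gam b i 0 = rs b i := by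
  unfold gam rs
  rw [if_neg (by omega)]
  obtain ⟨p, rfl⟩ : ∃ p, i = p + 1 := ⟨i - 1, by omega⟩
  rw [Nat.add_sub_cancel, prod_range_succ']
  simp only [Nat.cast_zero, add_zero]
  rw [mul_comm]
  congr 1
  refine prod_congr rfl fun t _ => ?_
  push_cast
  ring

theorem PP_apex (b j N : ℕ) : PP b j N 0 0 = SS b N j := by
  unfold PP SS
  symm
  have h1 : ∀ i ∈ range (j + 1), (j.choose i : ℚ) * (-2) ^ i * (rs b i / rs N i) =
      rs (0 - (j : ℚ)) i / rs N i * (-1) ^ i *
      ∑ l ∈ range (i + 1), bet b i l * ch (0 - 1 + l) (2 * j - i) := by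
    intro i hi
    rw [mem_range] at hi
    rw [sum_eq_single 0]
    · have e1 : (0 : ℚ) - 1 + ((0 : ℕ) : ℚ) = -1 := by norm_num
      rw [e1, ch_neg_one, zero_sub, rs_neg' (by omega)]
      have e2 : (-1 : ℚ) ^ (2 * j - i) * (-1) ^ i = 1 := by
        rw [← pow_add, show 2 * j - i + i = 2 * j by omega, pow_mul]
        simp
      have e3 : (-1 : ℚ) ^ i * (-1) ^ i = 1 := by rw [← mul_pow]; simp
      have e4 : (-1 : ℚ) ^ (2 * j - i) = (-1) ^ i := by
        have : (-1 : ℚ) ^ (2 * j - i) * ((-1) ^ i * (-1) ^ i) = (-1) ^ i := by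
          rw [← mul_assoc, e2, one_mul]
        rwa [e3, mul_one] at this
      have e5 : (-2 : ℚ) ^ i = (-1) ^ i * 2 ^ i := by rw [← mul_pow]; norm_num
      have f4 : (i.factorial : ℚ) ≠ 0 := by exact_mod_cast Nat.factorial_ne_zero _
      have e6 : gam b i 0 = rs b i := by
        rcases Nat.eq_zero_or_pos i with h | h
        · subst h; simp [gam, rs]
        · exact gam_zero b i h
      unfold bet
      rw [e4, e5, e6]
      simp only [Nat.choose_zero_right, Nat.cast_one, Nat.sub_zero, pow_zero]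
      field_simp
      rw [pow_two, e3, mul_one]
    · intro l hl hl0
      rw [mem_range] at hl
      have e : (0 : ℚ) - 1 + l = ((l - 1 : ℕ) : ℚ) := by
        rw [Nat.cast_sub (by omega)]; push_cast; ring
      rw [e, ch_nat, Nat.choose_eq_zero_of_lt (by omega)]
      simp
    · simp
  rw [sum_congr rfl h1]
  refine sum_subset (range_subset_range.2 (by omega)) fun i _ hi => ?_
  rw [mem_range, not_lt] at hi
  rw [zero_sub, rs_neg (by omega)]
  simp

/-- the moments -/
noncomputable def mu (b N i : ℕ) : ℚ := rs b i / rs N i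

/-- the linear functional with the moments `mu` -/
noncomputable def EE (b N : ℕ) : ℚ[X] →ₗ[ℚ] ℚ := Polynomial.lsum fun i => mu b N i • LinearMap.id

theorem EE_mono (b N i : ℕ) (a : ℚ) : EE b N (monomial i a) = mu b N i * a := by
  unfold EE
  rw [Polynomial.lsum_apply, Polynomial.sum_monomial_index _ _ (by simp)]
  simp

theorem mu_succ {b N : ℕ} (hN : 1 ≤ N) (i : ℕ) : ((b : ℚ) + i) * mu b N i = (N + i) * mu b N (i + 1) := by
  have hN' : (0 : ℚ) < N := by exact_mod_cast hN
  unfold mu
  rw [rs_succ, rs_succ]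
  have h1 := (rs_pos hN' i).ne'
  have h2 : (N : ℚ) + i ≠ 0 := by positivity
  field_simp

theorem stein {b N : ℕ} (hN : 1 ≤ N) (p : ℚ[X]) :
    EE b N (X * (1 - X) * derivative p + (C (b : ℚ) - C (N : ℚ) * X) * p) = 0 := by
  induction p using Polynomial.induction_on' with
  | add p q hp hq =>
    have e : X * (1 - X) * derivative (p + q) + (C (b : ℚ) - C (N : ℚ) * X) * (p + q) =
        (X * (1 - X) * derivative p + (C (b : ℚ) - C (N : ℚ) * X) * p) +
        (X * (1 - X) * derivative q + (C (b : ℚ) - C (N : ℚ) * X) * q) := by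
      rw [derivative_add]; ring
    rw [e, map_add, hp, hq, add_zero]
  | monomial n a =>
    have e : X * (1 - X) * derivative (monomial n a) + (C (b : ℚ) - C (N : ℚ) * X) * monomial n a =
        monomial n ((n : ℚ) * a + b * a) + monomial (n + 1) (-(n : ℚ) * a - N * a) := by
      rw [derivative_monomial]
      have e1 : (X : ℚ[X]) * monomial (n - 1) (a * (n : ℚ)) = monomial n (a * (n : ℚ)) := by
        rcases Nat.eq_zero_or_pos n with h | h
        · subst h; simp
        · rw [X_mul_monomial, Nat.sub_add_cancel h]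
      have e2 : X * (1 - X) * monomial (n - 1) (a * (n : ℚ)) =
          monomial n (a * (n : ℚ)) - monomial (n + 1) (a * (n : ℚ)) := by
        rw [mul_right_comm, e1, mul_sub, mul_one, monomial_mul_X]
      rw [e2, sub_mul, C_mul_monomial, mul_assoc, X_mul_monomial, C_mul_monomial]
      have e3 : monomial (n + 1) (-(n : ℚ) * a - N * a) =
        -monomial (n + 1) (a * (n : ℚ)) - monomial (n + 1) ((N : ℚ) * a) := by
        rw [← map_neg, ← map_sub]; congr 1; ring
      rw [e3, map_add, mul_comm a (n : ℚ)]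
      ring
    rw [e, map_add, EE_mono, EE_mono]
    have := mu_succ (b := b) hN n
    linear_combination a * this

theorem EE_pow (b N j : ℕ) : EE b N ((1 - 2 * X) ^ j) = SS b N j := by
  have e : ((1 - 2 * X : ℚ[X])) ^ j = ∑ i ∈ range (j + 1), monomial i ((j.choose i : ℚ) * (-2) ^ i) := by
    rw [sub_eq_add_neg, add_comm, add_pow]
    refine sum_congr rfl fun i _ => ?_
    rw [← C_mul_X_pow_eq_monomial]
    simp only [map_mul, map_pow, map_neg, map_natCast, one_pow, mul_one]
    have : (C 2 : ℚ[X]) = 2 := map_ofNat C 2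
    rw [this]
    have e2 : (-(2 * X) : ℚ[X]) = -2 * X := by ring
    rw [e2, mul_pow]
    ring
  rw [e, map_sum]
  unfold SS
  refine sum_congr rfl fun i _ => ?_
  rw [EE_mono]
  unfold mu
  ring

theorem SS_rec {b N : ℕ} (hN : 1 ≤ N) (j : ℕ) :
    ((N : ℚ) + (j + 1)) * SS b N (j + 2) = (N - 2 * b) * SS b N (j + 1) + (j + 1) * SS b N j := by
  have h := stein (b := b) hN ((1 - 2 * X) ^ (j + 1))
  have hd : derivative ((1 - 2 * X : ℚ[X]) ^ (j + 1)) = C (-2 * ((j : ℚ) + 1)) * (1 - 2 * X) ^ j := by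
    rw [derivative_pow]
    have : (2 : ℚ[X]) = C 2 := (map_ofNat C 2).symm
    simp only [derivative_sub, derivative_one, this, derivative_mul, derivative_C, derivative_X,
      Nat.add_sub_cancel]
    simp only [map_mul, map_neg, map_add, map_natCast, map_one]
    push_cast
    ring
  have e : X * (1 - X) * derivative ((1 - 2 * X : ℚ[X]) ^ (j + 1)) +
      (C (b : ℚ) - C (N : ℚ) * X) * (1 - 2 * X) ^ (j + 1) =
      (-((j : ℚ) + 1) / 2) • (1 - 2 * X : ℚ[X]) ^ j + ((b : ℚ) - N / 2) • (1 - 2 * X : ℚ[X]) ^ (j + 1) +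
        (((N : ℚ) + (j + 1)) / 2) • (1 - 2 * X : ℚ[X]) ^ (j + 2) := by
    rw [hd]
    simp only [smul_eq_C_mul]
    have h2 : (2 : ℚ[X]) * C (2⁻¹ : ℚ) = 1 := by
      rw [← map_ofNat C 2, ← map_mul]; norm_num
    simp only [div_eq_mul_inv, map_mul, map_neg, map_add, map_sub, map_natCast, map_one, pow_succ]
    have h3 : (C 2 : ℚ[X]) = 2 := map_ofNat C 2
    rw [h3]
    linear_combination ((2 * ((j : ℚ[X]) + 1) * X * (1 - X) + (N : ℚ[X]) * X * (1 - 2 * X)) *
      (1 - 2 * X) ^ j) * h2
  rw [e, map_add, map_add, map_smul, map_smul, map_smul, EE_pow, EE_pow, EE_pow] at h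
  simp only [smul_eq_mul] at h
  linear_combination 2 * h

theorem SS_zero (b N : ℕ) : SS b N 0 = 1 := by
  simp [SS, rs]

theorem SS_one {b N : ℕ} (hN : 1 ≤ N) : SS b N 1 * N = N - 2 * b := by
  have hN' : (N : ℚ) ≠ 0 := by positivity
  unfold SS rs
  rw [sum_range_succ, sum_range_one, prod_range_zero, prod_range_zero, prod_range_one, prod_range_one]
  simp
  field_simp
  ring

theorem SS_pos {b N : ℕ} (hN : 2 * b < N) (j : ℕ) : 0 < SS b N j := by
  have hN1 : 1 ≤ N := by omega
  have hN' : (0 : ℚ) < N := by exact_mod_cast hN1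
  have hb : (0 : ℚ) < N - 2 * b := by
    have : ((2 * b : ℕ) : ℚ) < N := by exact_mod_cast hN
    push_cast at this
    linarith
  have key : 0 < SS b N j ∧ 0 < SS b N (j + 1) := by
    induction j with
    | zero =>
      refine ⟨by rw [SS_zero]; norm_num, ?_⟩
      have := SS_one (b := b) hN1
      by_contra hcon
      push Not at hcon
      have h2 : SS b N 1 * N ≤ 0 := mul_nonpos_of_nonpos_of_nonneg hcon hN'.le
      linarith
    | succ j ih =>
      refine ⟨ih.2, ?_⟩
      have h := SS_rec (b := b) hN1 j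
      have h1 := mul_pos hb ih.2
      have h2 : 0 < ((j : ℚ) + 1) * SS b N j := mul_pos (by positivity) ih.1
      have h3 : 0 < ((N : ℚ) + (j + 1)) * SS b N (j + 2) := by rw [h]; linarith
      exact (mul_pos_iff_of_pos_left (by positivity)).1 h3
  exact key.1

end Pool.Agent.N135.QT
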