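import Pool.Agent.TH978.S13.Opr
import Pool.Agent.N135.QT.Func2

set_option autoImplicit false

/-!
# The leading form over a general field
-/

namespace Pool.Agent.N135.QT

open Finset Pool.Agent.TH176.Nag
open Pool.Agent.TH978.S13 (dsc tau)

section one

variable {F : Type*} [Field F] [CharZero F]

/-- a Laurent polynomial in one variable with many zeros vanishes -/
theorem one_var {ι : Type} [Fintype ι] (x : ι → F) (hx : Function.Injective x) (hx0 : ∀ i, x i ≠ 0)
    (w : ι → ℕ) (h : ℤ →₀ F) (α β : ℝ) (hs : ∀ a ∈ h.support, α ≤ (a : ℝ) ∧ (a : ℝ) ≤ β)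
    (hB : β - α < ∑ i, (w i : ℝ))
    (hz : ∀ i, ∀ c < w i, (h.sum fun a v => v * ((a : F) ^ c * x i ^ a)) = 0) : h = 0 := by
  classical
  by_contra hne
  have hsn : h.support.Nonempty := Finsupp.support_nonempty_iff.2 hne
  set a0 := h.support.min' hsn with ha0
  have ha0m : a0 ∈ h.support := Finset.min'_mem _ _
  have hle : ∀ a ∈ h.support, a0 ≤ a := fun a ha => Finset.min'_le _ _ ha
  -- all polynomial weights
  have hP : ∀ i, ∀ P : Polynomial F, P.natDegree < w i →
      (h.sum fun a v => v * (P.eval (a : F) * x i ^ a)) = 0 := by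
    intro i P hP
    have h1 : (h.sum fun a v => v * (P.eval (a : F) * x i ^ a)) =
        ∑ c ∈ range (P.natDegree + 1), P.coeff c * (h.sum fun a v => v * ((a : F) ^ c * x i ^ a)) := by
      unfold Finsupp.sum
      simp_rw [Finset.mul_sum]
      rw [Finset.sum_comm]
      refine Finset.sum_congr rfl fun a _ => ?_
      rw [Polynomial.eval_eq_sum_range, Finset.sum_mul, Finset.mul_sum]
      refine Finset.sum_congr rfl fun c _ => ?_
      ring
    rw [h1]
    refine Finset.sum_eq_zero fun c hc => ?_
    rw [hz i c (by have := Finset.mem_range.1 hc; omega), mul_zero]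
  -- the polynomial
  set p : Polynomial F := ∑ a ∈ h.support, Polynomial.monomial (a - a0).toNat (h a) with hp
  have hcoeff : ∀ a ∈ h.support, p.coeff (a - a0).toNat = h a := by
    intro a ha
    rw [hp, Polynomial.finsetSum_coeff, Finset.sum_eq_single a]
    · simp
    · intro b hb hba
      rw [Polynomial.coeff_monomial, if_neg]
      intro h2
      apply hba
      have := hle a ha
      have := hle b hb
      omega
    · intro h2
      exact absurd ha h2
  have hp0 : p ≠ 0 := by
    intro h2
    have h3 := hcoeff a0 ha0m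
    rw [h2, Polynomial.coeff_zero] at h3
    exact (Finsupp.mem_support_iff.1 ha0m) h3.symm
  have hdeg : (p.natDegree : ℝ) ≤ β - α := by
    have h1 : ∀ n ∈ p.support, (n : ℝ) ≤ β - α := by
      intro n hn
      rw [Polynomial.mem_support_iff, hp, Polynomial.finsetSum_coeff] at hn
      obtain ⟨a, ha, h2⟩ := Finset.exists_ne_zero_of_sum_ne_zero hn
      rw [Polynomial.coeff_monomial] at h2
      have h3 : (a - a0).toNat = n := by
        by_contra h4
        rw [if_neg h4] at h2
        exact h2 rfl
      have h4 := hle a ha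
      have h5 : (n : ℝ) = (a : ℝ) - a0 := by
        rw [← h3]
        have : (((a - a0).toNat : ℤ)) = a - a0 := Int.toNat_of_nonneg (by omega)
        have h6 : ((((a - a0).toNat : ℤ)) : ℝ) = ((a - a0 : ℤ) : ℝ) := by rw [this]
        push_cast at h6
        exact_mod_cast h6
      rw [h5]
      have h6 := (hs a ha).2
      have h7 := (hs a0 ha0m).1
      linarith
    exact h1 _ (Polynomial.natDegree_mem_support_of_nonzero hp0)
  -- multiplicities
  have hroot : ∀ i, ∀ c < w i, ((Polynomial.derivative^[c]) p).eval (x i) = 0 := by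
    intro i c hc
    have hdp : ((descPochhammer F c).comp (Polynomial.X - Polynomial.C (a0 : F))).natDegree < w i := by
      refine lt_of_le_of_lt (Polynomial.natDegree_comp_le) ?_
      rw [descPochhammer_natDegree, Polynomial.natDegree_X_sub_C, mul_one]
      exact hc
    have h1 := hP i _ hdp
    have h2 : ((Polynomial.derivative^[c]) p).eval (x i) =
        (x i ^ (a0 + c))⁻¹ * (h.sum fun a v => v *
          (((descPochhammer F c).comp (Polynomial.X - Polynomial.C (a0 : F))).eval (a : F) *
            x i ^ a)) := by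
      rw [hp, Polynomial.iterate_derivative_sum, Polynomial.eval_finsetSum, Finsupp.sum,
        Finset.mul_sum]
      refine Finset.sum_congr rfl fun a ha => ?_
      have h3 := hle a ha
      rw [← Polynomial.C_mul_X_pow_eq_monomial, Polynomial.iterate_derivative_C_mul,
        Polynomial.iterate_derivative_X_pow_eq_natCast_mul, Polynomial.eval_mul,
        Polynomial.eval_mul, Polynomial.eval_C, Polynomial.eval_pow, Polynomial.eval_X,
        Polynomial.eval_natCast, Polynomial.eval_comp, Polynomial.eval_sub, Polynomial.eval_X,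
        Polynomial.eval_C]
      have h4 : ((a : F) - (a0 : F)) = (((a - a0).toNat : ℕ) : F) := by
        have : (((a - a0).toNat : ℤ)) = a - a0 := Int.toNat_of_nonneg (by omega)
        have h6 : ((((a - a0).toNat : ℤ)) : F) = ((a - a0 : ℤ) : F) := by rw [this]
        push_cast at h6
        exact_mod_cast h6.symm
      rw [h4, descPochhammer_eval_eq_descFactorial]
      rcases lt_or_ge (a - a0).toNat c with h5 | h5
      · rw [Nat.descFactorial_of_lt h5]
        simp
      · have h6 : x i ^ ((a - a0).toNat - c) = (x i ^ (a0 + c))⁻¹ * x i ^ a := by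
          rw [← zpow_neg, ← zpow_add₀ (hx0 i), ← zpow_natCast]
          congr 1
          omega
        rw [h6]
        ring
    rw [h2, h1, mul_zero]
  have hdvd : ∀ i, (Polynomial.X - Polynomial.C (x i)) ^ w i ∣ p := by
    intro i
    rw [← Polynomial.le_rootMultiplicity_iff hp0]
    rcases Nat.eq_zero_or_pos (w i) with h0 | h0
    · omega
    · have h1 : w i - 1 < p.rootMultiplicity (x i) := by
        rw [Polynomial.lt_rootMultiplicity_iff_isRoot_iterate_derivative hp0]
        intro m hm
        exact hroot i m (by omega)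
      omega
  have hprod : (∏ i, (Polynomial.X - Polynomial.C (x i)) ^ w i) ∣ p := by
    apply Finset.prod_dvd_of_coprime
    · intro i _ j _ hij
      exact (Polynomial.pairwise_coprime_X_sub_C hx hij).pow
    · intro i _
      exact hdvd i
  have h1 := Polynomial.natDegree_le_of_dvd hprod hp0
  rw [Polynomial.natDegree_prod_of_monic _ _ (fun i _ => (Polynomial.monic_X_sub_C _).pow _)] at h1
  simp_rw [Polynomial.natDegree_pow, Polynomial.natDegree_X_sub_C, mul_one] at h1
  have h2 : ((∑ i, w i : ℕ) : ℝ) ≤ p.natDegree := by exact_mod_cast h1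
  push_cast at h2
  linarith


end one

section line

variable {F : Type*} [Field F] [CharZero F]

/-- a descending product vanishes at a small natural number -/
theorem dsc_eq_zero_of_lt {k : ℕ} {j : ℤ} (h0 : 0 ≤ j) (hk : j < k) : dsc k (j : F) = 0 := by
  unfold dsc
  obtain ⟨n, hn⟩ := Int.eq_ofNat_of_zero_le h0
  refine prod_eq_zero (mem_range.2 (show n < k by omega)) ?_
  rw [hn]
  simp

theorem line_tau {ι : Type} [Fintype ι] (x : ι → F) (hx : Function.Injective x) (hx0 : ∀ i, x i ≠ 0)
    {h : (ℤ × ℤ) →₀ F} {w : ι → ℕ} (hL : ∀ i, LM h (x i) 1 (w i)) {c : ℤ} (hc : ∀ p ∈ h.support, c ≤ p.1)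
    (hpos : ∀ p ∈ h.support, 0 ≤ p.2) {k : ℕ} {β : ℝ}
    (hβ : ∀ p ∈ h.support, (k : ℤ) ≤ p.2 → (p.1 : ℝ) ≤ β)
    (hlen : β - c < ∑ i, ((w i - k : ℕ) : ℝ)) :
    tau h c (dsc k) = 0 := by
  classical
  let H : ℤ →₀ F := ∑ p ∈ h.support,
    Finsupp.single p.1 (h p * dsc k (p.2 : F))
  have hHa : ∀ a : ℤ, H a = ∑ p ∈ h.support,
      if p.1 = a then h p * dsc k (p.2 : F) else 0 := by
    intro a
    simp only [H, Finsupp.coe_finsetSum, Finset.sum_apply, Finsupp.single_apply]
  have hH0 : H = 0 := by
    refine one_var x hx hx0 (fun i => w i - k) H (c : ℝ) β ?_ hlen ?_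
    · intro a ha
      have h1 : H a ≠ 0 := Finsupp.mem_support_iff.1 ha
      rw [hHa] at h1
      obtain ⟨p, hp, hp1⟩ := exists_ne_zero_of_sum_ne_zero h1
      have hpa : p.1 = a := by
        by_contra hne
        exact hp1 (if_neg hne)
      rw [if_pos hpa] at hp1
      have hd : dsc k (p.2 : F) ≠ 0 := right_ne_zero_of_mul hp1
      have hk : (k : ℤ) ≤ p.2 := by
        by_contra hlt
        exact hd (dsc_eq_zero_of_lt (k := k) (hpos p hp) (not_le.1 hlt))
      rw [← hpa]
      exact ⟨by exact_mod_cast hc p hp, hβ p hp hk⟩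
    · intro i e he
      have hP := PF_desc (K := F) (a := e) (b := k) (w := w i) (by omega)
      have h2 := hL i _ hP
      have h3 : (H.sum fun a v => v * ((a : F) ^ e * x i ^ a)) =
          ∑ p ∈ h.support, h p * dsc k (p.2 : F) *
            ((p.1 : F) ^ e * x i ^ p.1) := by
        simp only [H]
        rw [← Finsupp.sum_finsetSum_index (h := fun (a : ℤ) (v : F) => v * ((a : F) ^ e * x i ^ a))
          (by intro a; simp) (by intro a b1 b2; ring)]
        refine sum_congr rfl fun p _ => ?_
        rw [Finsupp.sum_single_index (by simp)]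
      rw [h3, ← h2]
      unfold pr Finsupp.sum
      refine sum_congr rfl fun p _ => ?_
      unfold dsc
      beta_reduce
      rw [one_zpow]
      ring
  have h4 : tau h c (dsc k) = H c := by
    rw [hHa]
    unfold tau Finsupp.sum
    rfl
  rw [h4, hH0]
  rfl

end line

section lead

variable {F : Type} [Field F]

/-- scaling the first variable by `tv` -/
noncomputable def sc (f : (ℤ × ℤ) →₀ LaurentSeries F) : (ℤ × ℤ) →₀ LaurentSeries F :=
  Finsupp.onFinset f.support (fun m => f m * tv F ^ m.1) (fun m hm => by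
    rw [Finsupp.mem_support_iff]
    intro h
    apply hm
    rw [h, zero_mul])

theorem sc_apply (f : (ℤ × ℤ) →₀ LaurentSeries F) (m : ℤ × ℤ) : sc f m = f m * tv F ^ m.1 := rfl

theorem tv_ne : tv F ≠ 0 := by simp [tv]

theorem sc_support (f : (ℤ × ℤ) →₀ LaurentSeries F) : (sc f).support = f.support := by
  ext m
  rw [Finsupp.mem_support_iff, Finsupp.mem_support_iff, sc_apply]
  simp [zpow_ne_zero _ tv_ne]

theorem LM_sc {f : (ℤ × ℤ) →₀ LaurentSeries F} {x y : LaurentSeries F} {w : ℕ}
    (h : LM f (tv F * x) y w) : LM (sc f) x y w := by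
  intro P hP
  have h1 := h P hP
  unfold pr Finsupp.sum at h1 ⊢
  rw [sc_support, ← h1]
  apply sum_congr rfl
  intro m _
  beta_reduce
  rw [sc_apply, mul_zpow]
  ring

theorem tv_zpow (c : ℤ) : tv F ^ c = HahnSeries.single c 1 := by
  rw [tv]
  exact (RatFunc.single_zpow c).symm

theorem coeff_tv (u : LaurentSeries F) (c k : ℤ) : (u * tv F ^ c).coeff k = u.coeff (k - c) := by
  rw [tv_zpow]
  have h := HahnSeries.coeff_mul_single_add (r := (1 : F)) (x := u) (a := k - c) (b := c)
  rw [sub_add_cancel, mul_one] at h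
  exact h


theorem lead_form {ι : Type} (x : ι → F) (x0 y0 : F) {w : ι → ℕ} {m : ℕ}
    {f : (ℤ × ℤ) →₀ LaurentSeries F}
    (hf : f ≠ 0) (hL : ∀ i, LM f (cst (x i)) 1 (w i)) (hL0 : LM f (tv F * cst x0) (cst y0) m) :
    ∃ g : (ℤ × ℤ) →₀ F, g ≠ 0 ∧ g.support ⊆ f.support ∧ LM g x0 y0 m ∧
      ∀ c : ℤ, ∃ h : (ℤ × ℤ) →₀ F, h.support ⊆ f.support ∧ (∀ i, LM h (x i) 1 (w i)) ∧
        (∀ p ∈ h.support, c ≤ p.1) ∧ ∀ b, h (c, b) = g (c, b) := by
  have h1 : LM (sc f) (cst x0) (cst y0) m := LM_sc hL0
  have h2 : sc f ≠ 0 := by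
    intro h
    apply hf
    rw [← Finsupp.support_eq_empty, ← sc_support, h, Finsupp.support_zero]
  obtain ⟨n, hn1, hn2, -⟩ := exists_lead h2
  refine ⟨(sc f).mapRange (fun u => u.coeff n) rfl, hn1, ?_, LM_coeff h1 n, ?_⟩
  · exact Finsupp.support_mapRange.trans (sc_support f).le
  · intro c
    refine ⟨f.mapRange (fun u => u.coeff (n - c)) rfl, Finsupp.support_mapRange, ?_, ?_, ?_⟩
    · intro i
      apply LM_coeff
      have e : (cst (1 : F) : LaurentSeries F) = 1 := map_one _
      rw [e]
      exact hL i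
    · intro p hp
      rw [Finsupp.mem_support_iff, Finsupp.mapRange_apply] at hp
      by_contra hlt
      push Not at hlt
      apply hp
      have h3 := hn2 p (n - c + p.1) (by omega)
      rw [sc_apply, coeff_tv] at h3
      rw [← h3]
      congr 1
      ring
    · intro b
      rw [Finsupp.mapRange_apply, Finsupp.mapRange_apply, sc_apply, coeff_tv]


end lead

end Pool.Agent.N135.QT
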