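import Pool.Agent.N135.QT.Num
import Pool.Agent.TH864.DP.Joint
import Pool.Agent.TH759.EV.NRows

set_option autoImplicit false

/-!
# Emptiness or independence in a block of `M + 2` points of multiplicities `m` and `m + 1`
-/

namespace Pool.Agent.N135.QT

open Finset Pool.Agent.TH176.Nag Pool.Agent.TH603.Sur Pool.Agent.TH603.Cut Pool.Agent.TH469.SX
open Pool.Agent.TH864.SX (Fb Fa Slp)
open Pool.Agent.TH759.EV (Emp_apex_w Sur_rows_w)
open Pool.Agent.TH978.S13 (Sc)

/-- emptiness of the block with its apex in the new range -/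
theorem Emp_new {ι : Type} [Fintype ι] {w : ι → ℕ} {M D m ν : ℕ} {K : ℝ} (hS : Slp M 2 K)
    (hc : Fintype.card ι = M + 2) (i0 : ι) (hw0 : w i0 = m)
    (hw : ∀ k ≤ m, (M + 2) * (m - k) + ν ≤ ∑ i, (w i - k)) (hm : 1 ≤ m)
    (h0 : (K + 1) * m + ν ≤ K * D)
    (h1 : (K * D - (K + 1) * m - ν) * (2 * K + 1) < M - ν)
    (hexc : ¬ (M = 3 ∧ m = 10 ∧ D = 13 ∧ ν = 0)) : Emp w (BB M D K) := by
  classical
  have hM : 1 ≤ M := hS.hM
  obtain ⟨j, b, hHy⟩ := exists_Hy hM hS.hMK (by have := hS.eq; push_cast at this; exact this) hS.irr hm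
    h0 h1 hexc
  have hcard : Fintype.card {i // i ≠ i0} = M + 1 := by
    rw [Fintype.card_subtype_compl, hc]
    simp
  let e : Fin (M + 1) ≃ {i // i ≠ i0} := (Fintype.equivFinOfCardEq hcard).symm
  have hE := Emp_BB hHy (fun a => w (e a).1) (by
    intro k hk
    have h2 := hw k hk
    have h3 : ∑ a, (w (e a).1 - k) = ∑ x : {i // i ≠ i0}, (w x.1 - k) :=
      Equiv.sum_comp e (fun x : {i // i ≠ i0} => w x.1 - k)
    have h4 : ∑ x : {i // i ≠ i0}, (w x.1 - k) = ∑ i ∈ univ.erase i0, (w i - k) := by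
      rw [Finset.sum_subtype (univ.erase i0) (p := fun i => i ≠ i0)]
      intro i
      simp
    rw [h3, h4]
    have h5 := Finset.add_sum_erase univ (fun i => w i - k) (mem_univ i0)
    simp only [hw0] at h5
    have h6 : (M + 2) * (m - k) = (M + 1) * (m - k) + (m - k) := by ring
    omega)
  refine Emp_emb (g := Sum.elim (fun a => (e a).1) (fun _ => i0)) ?_ ?_ hE
  · rintro (a | a) (b | b) hab
    · simp only [Sum.elim_inl] at hab
      rw [e.injective (Subtype.ext hab)]
    · exact absurd hab (e a).2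
    · exact absurd hab.symm (e b).2
    · rw [Subsingleton.elim a b]
  · rintro (a | a)
    · exact le_rfl
    · simp only [Sum.elim_inr]
      exact hw0.ge

/-- **emptiness or independence, multiplicities `m` and `m + 1`** -/
theorem dich2 {ι : Type} [Fintype ι] {w : ι → ℕ} {M D m n1 : ℕ} {K : ℝ} (hS : Slp M 2 K)
    (hKM : K < M + 1)
    (hc : Fintype.card ι = M + 2) (hw : ∀ i, w i = m ∨ w i = m + 1) (i0 : ι) (hw0 : w i0 = m)
    (hn1 : n1 = ∑ i, (w i - m))
    (hG : (K * D - (K + 1) * m < n1) ∨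
      ((K * D - (K + 1) * m - n1) * (2 * K + 1) < M - n1 ∧ ¬ (M = 3 ∧ m = 10 ∧ D = 13 ∧ n1 = 0)) ∨
      n1 * (2 * K + 1) ≤ (2 * (K * D - (K + 1) * m) - 1) * (K + 1)) :
    Emp w (BB M D K) ∨ Sur w (Sc (K - M) K D) := by
  classical
  have hM : 1 ≤ M := hS.hM
  have hMR : (1 : ℝ) ≤ M := by exact_mod_cast hM
  have hK0 : 0 < K := hS.K0
  have hKq : ((2 : ℕ) : ℝ) * (K * (K - M)) = M := hS.eq
  have hK2 : 2 * (K * (K - M)) = M := by push_cast at hKq; exact hKq
  have hMK := hS.hMK
  have hid : 2 * ((K + 1) * (K + 1)) = (M + 2) * (2 * K + 1) := by linear_combination hK2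
  have h2K : 0 < 2 * K + 1 := by linarith
  have hK1 : 0 < K + 1 := by linarith
  have hSum : ∀ k : ℕ, k ≤ m → ∑ i, (w i - k) = (M + 2) * (m - k) + n1 := by
    intro k hk
    rw [hn1]
    have : (M + 2) * (m - k) = ∑ _i : ι, (m - k) := by simp [hc]
    rw [this, ← sum_add_distrib]
    refine sum_congr rfl fun i _ => ?_
    rcases hw i with h | h <;> omega
  have hW : ∑ i, w i = (M + 2) * m + n1 := by
    have := hSum 0 (Nat.zero_le _)
    simpa using this
  have hn3 : n1 ≤ M + 1 := by
    have h1 : n1 = ∑ i ∈ univ.erase i0, (w i - m) := by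
      rw [hn1, ← Finset.add_sum_erase univ _ (mem_univ i0), hw0]
      simp
    rw [h1]
    have h2 : ∑ i ∈ univ.erase i0, (w i - m) ≤ ∑ i ∈ univ.erase i0, 1 :=
      sum_le_sum fun i _ => by rcases hw i with h | h <;> omega
    have h3 : ∑ i ∈ univ.erase i0, 1 = M + 1 := by
      rw [sum_const, card_erase_of_mem (mem_univ _), card_univ, hc]
      simp
    omega
  obtain ⟨e, he⟩ : ∃ e : ℝ, e = K * D - (K + 1) * m := ⟨_, rfl⟩
  rw [← he] at hG
  obtain ⟨A, hA⟩ : ∃ A : ℝ, A = K * (3 * D : ℕ) / 3 := ⟨_, rfl⟩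
  have hAD : A = K * D := by rw [hA]; push_cast; ring
  have hA0 : 0 ≤ A := by rw [hAD]; positivity
  have hAe : A = (K + 1) * m + e := by rw [hAD, he]; ring
  have hd : (((3 * D : ℕ) : ℝ)) / 3 = D := by push_cast; ring
  -- from the flattened block
  have toE : Emp w (Fl 2 K A ∪ {((0, 0) : ℤ × ℤ)}) → Emp w (BB M D K) := by
    intro hE
    have h1 := Pool.Agent.TH864.SX.Emp_blk hS (d := 3 * D) (hE.mono (by
      rw [hA]
      exact Pool.Agent.TH469.SX.Fa_sub 2 K (3 * D)))
    refine h1.mono ?_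
    rintro p ⟨g1, g2, g3⟩
    refine ⟨g1, ?_, ?_⟩
    · rw [hd]; exact g2
    · rw [hd]; exact g3
  have toS : Sur w (Fl 2 K A) → Sur w (Sc (K - M) K D) := by
    intro hE
    rw [hA] at hE
    have h1 := Pool.Agent.TH469.SX.Sur_bo hS (d := 3 * D) hE
    refine h1.mono ?_
    rintro p ⟨g1, g2, g3⟩
    rw [hd] at g2 g3
    exact ⟨g1, g2, g3⟩
  by_cases h1 : n1 * (2 * K + 1) ≤ (2 * e - 1) * (K + 1)
  · right
    apply toS
    refine Sur_rows_w (p := 1) (q := 2) (by norm_num) hK0 fun k hk => ?_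
    have hkm : k ≤ m := by
      obtain ⟨i, hi⟩ := hk
      rcases hw i with h | h <;> omega
    rw [hSum k hkm]
    obtain ⟨Y, hY⟩ : ∃ Y : ℝ, Y = A - (K + (1 : ℕ)) * k := ⟨_, rfl⟩
    obtain ⟨U, hU⟩ : ∃ U : ℤ, U = ⌊(Y - (K + (1 : ℕ))) / (((2 : ℕ) : ℝ) * (K + (1 : ℕ)) - 1)⌋ :=
      ⟨_, rfl⟩
    rw [← hY, ← hU]
    have e1 : ((2 : ℕ) : ℝ) * (K + (1 : ℕ)) - 1 = 2 * K + 1 := by push_cast; ring
    rw [e1] at hU
    have h2 := Int.lt_floor_add_one ((Y - (K + (1 : ℕ))) / (2 * K + 1))
    rw [← hU, div_lt_iff₀ h2K] at h2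
    have h3 := Int.lt_floor_add_one Y
    have h4 := mul_lt_mul_of_pos_right h3 h2K
    have h5 : Y * (2 * K + 2) = (M + 2) * (m - k) * (2 * K + 1) + 2 * e * (K + 1) := by
      rw [hY, hAe]
      push_cast
      linear_combination ((m : ℝ) - k) * hid
    have h6 : ((((M + 2) * (m - k) + n1 : ℕ) : ℤ) : ℝ) < ((⌊Y⌋ + U + 2 : ℤ) : ℝ) := by
      push_cast [Nat.cast_sub hkm]
      have h7 : ((M + 2) * ((m : ℝ) - k) + n1) * (2 * K + 1) < ((⌊Y⌋ : ℝ) + U + 2) * (2 * K + 1) := by
        push_cast at h2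
        linarith
      exact lt_of_mul_lt_mul_right h7 h2K.le
    have h7 := Int.cast_lt.1 h6
    omega
  push Not at h1
  rcases lt_or_ge e n1 with h2 | h2
  · left
    apply toE
    refine Emp_apex_w (p := 1) (q := 2) (M := M) (by norm_num) hK0 hKq (by rw [hc]) hA0 ?_ ?_
    · rw [hW, hAe]
      push_cast
      have h4 := mul_lt_mul_of_pos_left h1 (show 0 < 2 * (K + 1) by linarith)
      have h5 : ((M : ℝ) + 2) * (2 * e - 1) * (2 * K + 1) < (2 * (K + 1) * n1) * (2 * K + 1) := by
        have e1 : 2 * (K + 1) * ((2 * e - 1) * (K + 1)) = (M + 2) * (2 * e - 1) * (2 * K + 1) := by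
          linear_combination (2 * e - 1) * hid
        rw [e1] at h4
        linarith
      have h6 := lt_of_mul_lt_mul_right h5 h2K.le
      linarith
    · intro g hg1 hg2
      push_cast at hg1 hg2 ⊢
      rw [hAe] at hg1 hg2 ⊢
      have hn3R : (n1 : ℝ) ≤ M + 1 := by exact_mod_cast hn3
      have h3 : (g : ℝ) < m + 1 := by
        by_contra hcon
        push Not at hcon
        have := mul_le_mul_of_nonneg_left hcon hK1.le
        linarith
      have h4 : g < m + 1 := by exact_mod_cast h3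
      rcases Nat.lt_or_ge g m with h5 | h5
      · have h6 : ((∑ i, (w i - g) : ℕ) : ℝ) = (M + 2) * ((m : ℝ) - g) + n1 := by
          rw [hSum g h5.le]
          push_cast [Nat.cast_sub h5.le]
          ring
        have h7 : (1 : ℝ) ≤ (m : ℝ) - g := by
          have : ((g + 1 : ℕ) : ℝ) ≤ m := by exact_mod_cast h5
          push_cast at this
          linarith
        have h8 : ((M : ℝ) + 2) * 1 ≤ (M + 2) * ((m : ℝ) - g) :=
          mul_le_mul_of_nonneg_left h7 (by linarith)
        have h9 : (0 : ℝ) ≤ n1 := Nat.cast_nonneg _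
        push_cast at h6
        rw [h6]
        linarith
      · have h6 : g = m := by omega
        subst h6
        have h9 : (n1 : ℝ) = ∑ i, ((w i - g : ℕ) : ℝ) := by rw [hn1]; push_cast; rfl
        rw [← h9]
        linarith
  · rcases hG with hG | ⟨hG, hexc⟩ | hG
    · exfalso; linarith
    · have hn0 : (0 : ℝ) ≤ n1 := Nat.cast_nonneg _
      have hn4 : (n1 : ℝ) < M := by
        have : 0 ≤ (e - n1) * (2 * K + 1) := mul_nonneg (by linarith) h2K.le
        linarith
      rcases Nat.eq_zero_or_pos m with hm | hm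
      · -- `m = 0`
        right
        apply toS
        subst hm
        rcases Nat.eq_zero_or_pos D with hD | hD
        · subst hD
          have hn0' : n1 = 0 := by
            have : (n1 : ℝ) ≤ 0 := by rw [he] at h2; push_cast at h2; linarith
            exact_mod_cast le_antisymm this hn0
          refine Sur_rows_w (p := 1) (q := 2) (by norm_num) hK0 fun k hk => ?_
          exfalso
          obtain ⟨i, hi⟩ := hk
          have h3 : ∑ i, (w i - 0) = 0 := by rw [← hn1]; exact hn0'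
          rw [sum_eq_zero_iff] at h3
          have := h3 i (mem_univ i)
          omega
        · exfalso
          have hDR : (1 : ℝ) ≤ D := by exact_mod_cast hD
          have h3 : K * 1 ≤ K * (D : ℝ) := mul_le_mul_of_nonneg_left hDR hK0.le
          have h4 : K ≤ e := by rw [he]; push_cast; linarith
          have h5 : (K - n1) * (2 * K + 1) ≤ (e - n1) * (2 * K + 1) :=
            mul_le_mul_of_nonneg_right (by linarith) h2K.le
          -- `(K - n1) (2 K + 1) < M - n1`
          have h6 : (K - n1) * (2 * K + 1) < M - n1 := by linarith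
          have h7 : K * (2 * (M - n1) + 1) < 0 := by
            have : (K - n1) * (2 * K + 1) - (M - n1) = K * (2 * (M - n1) + 1) := by
              linear_combination hK2
            linarith
          have h8 : 0 < K * (2 * ((M : ℝ) - n1) + 1) := mul_pos hK0 (by linarith)
          linarith
      · left
        refine Emp_new (ν := n1) hS hc i0 hw0 (fun k hk => (hSum k hk).ge) hm ?_ ?_ hexc
        · rw [he] at h2; linarith
        · rw [he] at hG; linarith
    · exfalso; linarith

end Pool.Agent.N135.QT
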