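import Pool.Agent.N135.QT.Block

set_option autoImplicit false

/-!
# The numbers
-/

namespace Pool.Agent.N135.QT

open Finset

theorem SS_232 : SS 2 3 2 ≠ 0 := by
  have h0 := SS_zero 2 3
  have h1 := SS_one (b := 2) (N := 3) (by norm_num)
  have h2 := SS_rec (b := 2) (N := 3) (by norm_num) 0
  norm_num at h1 h2
  intro h
  rw [h, h0] at h2
  have : SS 2 3 1 = -1 / 3 := by linarith
  rw [this] at h2
  norm_num at h2

theorem SS_221 : SS 2 2 1 ≠ 0 := by
  have h1 := SS_one (b := 2) (N := 2) (by norm_num)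
  intro h
  rw [h] at h1
  norm_num at h1

/-- the arithmetic of the window -/
theorem num {M m e ν : ℕ} {K x δ : ℝ} (hM : 1 ≤ M) (hx : K = M + x) (hKx : 2 * K * x = M)
    (x0 : 0 < x) (hδ : K * e = m + ν + δ) (δ0 : 0 ≤ δ) (hδ1 : δ * (2 * K + 1) < M - ν) (hm : 1 ≤ m)
    (hexc : ¬ (M = 3 ∧ m = 10 ∧ e = 3)) :
    ∃ j : ℕ, δ * (2 * K + 1) < j ∧ j + ν ≤ M ∧ 2 * j < m ∧ 2 ≤ e ∧ SS (e - 1) (m - 2 * j) j ≠ 0 := by
  have hMR : (1 : ℝ) ≤ M := by exact_mod_cast hM
  have hν : (0 : ℝ) ≤ ν := Nat.cast_nonneg ν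
  have hK0 : 0 < K := by rw [hx]; linarith
  have x1 : x < 1 / 2 := by
    by_contra hcon
    push Not at hcon
    have : 2 * K * (1 / 2) ≤ 2 * K * x := mul_le_mul_of_nonneg_left hcon (by linarith)
    linarith
  have x2 : 1 / 3 < x := by
    by_contra hcon
    push Not at hcon
    have h1 : 2 * K * x ≤ 2 * K * (1 / 3) := mul_le_mul_of_nonneg_left hcon (by linarith)
    linarith
  have hxx : x * (2 * K + 1) = M + x := by linear_combination hKx
  have hδx : δ < x := by
    have h1 : δ * (2 * K + 1) < x * (2 * K + 1) := by rw [hxx]; linarith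
    exact lt_of_mul_lt_mul_right h1 (by linarith)
  obtain ⟨j, hj⟩ : ∃ j : ℕ, j = ⌊δ * (2 * K + 1)⌋₊ + 1 := ⟨_, rfl⟩
  have hj1 : δ * (2 * K + 1) < j := by
    rw [hj]; push_cast; exact Nat.lt_floor_add_one _
  have hj2 : (j : ℝ) ≤ δ * (2 * K + 1) + 1 := by
    rw [hj]; push_cast
    have := Nat.floor_le (show 0 ≤ δ * (2 * K + 1) from mul_nonneg δ0 (by linarith))
    linarith
  have hj0 : 1 ≤ j := by omega
  have hjM : j + ν ≤ M := by
    have h1 : ((j : ℝ) - 1) + ν < M := by linarith
    have h2 : (j : ℝ) + ν < M + 1 := by linarith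
    have h3 : j + ν < M + 1 := by exact_mod_cast h2
    omega
  obtain ⟨u, hu⟩ : ∃ u : ℤ, u = (m : ℤ) + ν - M * e := ⟨_, rfl⟩
  have huR : (u : ℝ) = x * e - δ := by
    rw [hu]; push_cast
    rw [hx] at hδ
    linarith
  have u1 : x * (e - 1) < u := by rw [huR]; linarith
  have u2 : (u : ℝ) ≤ x * e := by rw [huR]; linarith
  have e0 : e ≠ 0 := by
    rintro rfl
    have : (1 : ℝ) ≤ m := by exact_mod_cast hm
    push_cast at hδ
    linarith
  have e1 : e ≠ 1 := by
    rintro rfl
    push_cast at u1 u2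
    have h1 : (0 : ℤ) < u := by exact_mod_cast (show (0 : ℝ) < u by linarith)
    have h2 : u < 1 := by exact_mod_cast (show (u : ℝ) < 1 by linarith)
    omega
  have e2 : e ≠ 2 := by
    rintro rfl
    push_cast at u1 u2
    have h1 : (0 : ℤ) < u := by exact_mod_cast (show (0 : ℝ) < u by linarith)
    have h2 : u < 1 := by exact_mod_cast (show (u : ℝ) < 1 by linarith)
    omega
  have e4 : e ≠ 4 := by
    rintro rfl
    push_cast at u1 u2
    have h1 : (1 : ℤ) < u := by exact_mod_cast (show (1 : ℝ) < u by linarith)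
    have h2 : u < 2 := by exact_mod_cast (show (u : ℝ) < 2 by linarith)
    omega
  rcases eq_or_ne e 3 with e3 | e3
  · subst e3
    push_cast at u1 u2 huR
    have h1 : (0 : ℤ) < u := by exact_mod_cast (show (0 : ℝ) < u by linarith)
    have h2 : u < 2 := by exact_mod_cast (show (u : ℝ) < 2 by linarith)
    have h3 : u = 1 := by omega
    rw [h3] at huR
    push_cast at huR
    have h4 : δ = 3 * x - 1 := by linarith
    have h5 : δ * (2 * K + 1) = M + x - 1 := by
      rw [h4]
      linear_combination 3 * hxx - 2 * hx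
    have hν0 : ν = 0 := by
      have : (ν : ℝ) < 1 := by linarith
      have : ν < 1 := by exact_mod_cast this
      omega
    subst hν0
    have hjM' : j = M := by
      have : (M : ℝ) < j + 1 := by linarith
      have : M < j + 1 := by exact_mod_cast this
      omega
    have hm' : m = 3 * M + 1 := by
      push_cast at hu
      omega
    have hN : m - 2 * j = M + 1 := by omega
    refine ⟨j, hj1, hjM, by omega, by omega, ?_⟩
    rw [hN, hjM']
    rcases Nat.lt_or_ge M 4 with h6 | h6
    · have h7 : M = 1 ∨ M = 2 ∨ M = 3 := by omega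
      rcases h7 with h7 | h7 | h7
      · subst h7; exact SS_221
      · subst h7; exact SS_232
      · exfalso
        exact hexc ⟨h7, by omega, rfl⟩
    · exact (SS_pos (by omega) _).ne'
  have he5 : 5 ≤ e := by omega
  have he5R : (5 : ℝ) ≤ e := by exact_mod_cast he5
  have u3 : 2 ≤ u := by
    have h1 : (1 : ℝ) < u := by
      have : x * 4 ≤ x * (e - 1) := mul_le_mul_of_nonneg_left (by linarith) x0.le
      linarith
    have : (1 : ℤ) < u := by exact_mod_cast h1
    omega
  rcases Nat.lt_or_ge M 3 with hM3 | hM3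
  · have h7 : M = 1 ∨ M = 2 := by omega
    rcases h7 with h7 | h7
    · subst h7
      have hν0 : ν = 0 := by omega
      have hj1' : j = 1 := by omega
      subst hν0
      have hue : u < e := by
        have : (u : ℝ) < e := by
          have : x * e ≤ 1 / 2 * e := mul_le_mul_of_nonneg_right x1.le (by linarith)
          linarith
        exact_mod_cast this
      push_cast at hu
      have hm' : (m : ℤ) = u + e := by omega
      refine ⟨j, hj1, hjM, by omega, by omega, ?_⟩
      rw [hj1']
      have hS := SS_one (b := e - 1) (N := m - 2 * 1) (by omega)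
      intro h0
      rw [h0, zero_mul] at hS
      have h8 : ((m - 2 * 1 : ℕ) : ℚ) = 2 * ((e - 1 : ℕ) : ℚ) := by linarith
      have h9 : m - 2 * 1 = 2 * (e - 1) := by exact_mod_cast h8
      omega
    · subst h7
      have hj12 : j = 1 ∨ j = 2 := by omega
      push_cast at hu
      rcases hj12 with h8 | h8
      · refine ⟨j, hj1, hjM, by omega, by omega, ?_⟩
        exact (SS_pos (by omega) _).ne'
      · have hν0 : ν = 0 := by omega
        subst hν0
        have h9 : u ≠ 2 := by
          intro h9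
          rw [h9] at huR
          push_cast at huR
          rw [h8] at hj2
          push_cast at hj2 hδ1 hxx
          -- `(2 + x) e = 2 (2 K + 1) + δ (2 K + 1)`
          have h10 : (2 + x) * (e : ℝ) = 10 + 4 * x + δ * (2 * K + 1) := by
            have h11 : x * (e : ℝ) * (2 * K + 1) = (2 + δ) * (2 * K + 1) := by
              rw [show x * (e : ℝ) = 2 + δ by linarith]
            have h12 : x * (e : ℝ) * (2 * K + 1) = (2 + x) * e := by
              linear_combination (e : ℝ) * hxx
            push_cast at hx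
            rw [h12] at h11
            linear_combination h11 + 4 * hx
          rcases Nat.lt_or_ge e 6 with h13 | h13
          · have h14 : e = 5 := by omega
            rw [h14] at h10
            push_cast at h10
            linarith
          · have h14 : (6 : ℝ) ≤ e := by exact_mod_cast h13
            have h15 : (2 + x) * 6 ≤ (2 + x) * (e : ℝ) := mul_le_mul_of_nonneg_left h14 (by linarith)
            linarith
        refine ⟨j, hj1, hjM, by omega, by omega, ?_⟩
        exact (SS_pos (by omega) _).ne'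
  · -- `M ≥ 3`
    have h8 : (M : ℤ) * e = ((M : ℤ) - 2) * (e - 2) + 2 * M + 2 * e - 4 := by ring
    have h9 : (1 : ℤ) * 3 ≤ ((M : ℤ) - 2) * (e - 2) :=
      mul_le_mul (by omega) (by omega) (by norm_num) (by omega)
    refine ⟨j, hj1, hjM, by omega, by omega, ?_⟩
    exact (SS_pos (by omega) _).ne'

/-- **the window**: the hypotheses hold -/
theorem exists_Hy {M D m ν : ℕ} {K : ℝ} (hM : 1 ≤ M) (hK1 : (M : ℝ) < K) (hK : 2 * (K * (K - M)) = M)
    (irr : Irrational K) (hm : 1 ≤ m) (h0 : (K + 1) * m + ν ≤ K * D)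
    (h1 : (K * D - (K + 1) * m - ν) * (2 * K + 1) < M - ν)
    (hexc : ¬ (M = 3 ∧ m = 10 ∧ D = 13 ∧ ν = 0)) :
    ∃ j b : ℕ, Hy M D m j b ν K (K * D - (K + 1) * m - ν) := by
  have hMR : (1 : ℝ) ≤ M := by exact_mod_cast hM
  have hν : (0 : ℝ) ≤ ν := Nat.cast_nonneg ν
  have hmR : (1 : ℝ) ≤ m := by exact_mod_cast hm
  have hK0 : 0 < K := by linarith
  have hmD : m ≤ D := by
    have h2 : K * (m : ℝ) ≤ K * D := by linarith
    have := le_of_mul_le_mul_left h2 hK0
    exact_mod_cast this
  obtain ⟨e, rfl⟩ := Nat.exists_eq_add_of_le hmD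
  obtain ⟨δ, hδ⟩ : ∃ δ : ℝ, δ = K * ((m + e : ℕ) : ℝ) - (K + 1) * m - ν := ⟨_, rfl⟩
  rw [← hδ] at h1 ⊢
  have hδ0 : 0 ≤ δ := by rw [hδ]; linarith
  have hexc' : ¬ (M = 3 ∧ m = 10 ∧ e = 3) := by
    rintro ⟨h3, h4, h5⟩
    subst h3 h4 h5
    refine hexc ⟨rfl, rfl, rfl, ?_⟩
    push_cast at hδ hK
    have hK4 : K < 7 / 2 := by
      by_contra hcon
      push Not at hcon
      nlinarith
    have : (ν : ℝ) < 1 := by linarith
    have : ν < 1 := by exact_mod_cast this
    omega
  obtain ⟨j, hj1, hj2, hj3, he, hS⟩ := num (M := M) (m := m) (e := e) (ν := ν) (K := K) (x := K - M)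
    (δ := δ) hM (by ring) (by linarith) (by linarith) (by rw [hδ]; push_cast; ring) hδ0 h1 hm
    hexc'
  have hδ2 : δ * (2 * K + 2) + ν < K + 1 := by
    have h3 : δ * 1 ≤ δ * (2 * K + 1) := mul_le_mul_of_nonneg_left (by linarith) hδ0
    have h4 : δ < 1 := by
      by_contra hcon
      push Not at hcon
      have : 1 * (2 * K + 1) ≤ δ * (2 * K + 1) := mul_le_mul_of_nonneg_right hcon (by linarith)
      linarith
    linarith
  refine ⟨j, e - 1, ⟨hM, hK1, hK, irr, by omega, by rw [hδ]; ring, hδ0, hδ2, hj1, hj2, hj3, by omega, hS⟩⟩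

end Pool.Agent.N135.QT
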