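import Pool.Agent.N135.QT.AB

set_option autoImplicit false

/-!
# The last point near the others
-/

namespace Pool.Agent.N135.QT

open Finset Pool.Agent.TH176.Nag
open Pool.Agent.TH978.S13 (dsc tau tau_eq_sum)

variable {M D m j b ν : ℕ} {K δ : ℝ}

theorem dsc_choose {L : Type*} [Field L] [CharZero L] (k : ℕ) (a : ℕ) :
    dsc k (((a : ℕ) : ℤ) : L) = (k.factorial : L) * (a.choose k : L) := by
  have := prod_desc_nat (F := L) a k
  unfold dsc
  push_cast
  exact this

/-- the last point near the others -/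
theorem stepB (h : Hy M D m j b ν K δ) {g : (ℤ × ℤ) →₀ LaurentSeries ℚ}
    (hg : (↑g.support : Set (ℤ × ℤ)) ⊆ BB M D K) (hL : LM g 1 (1 + tv ℚ) m)
    (hcol : Col M D m ν K g) (hap : g (0, (D : ℤ)) = 0) : g = 0 := by
  classical
  by_contra hne
  have hK0 := h.K0
  have hKM : 0 < K - M := by linarith [h.hK1]
  have hMR : (0 : ℝ) < M := by exact_mod_cast h.hM
  have hN0 : ∀ p ∈ g.support, 0 ≤ p.2 + ((0 : ℕ) : ℤ) := by
    intro p hp
    have := (hg hp).1
    simpa using this
  obtain ⟨n, hn1, hn2, -⟩ := exists_lead (flt_ne_zero hN0 hne)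
  have h1z : 1 + tv ℚ * (1 : LaurentSeries ℚ) ≠ 0 := by
    intro h0
    have h1 := congrArg (fun u : LaurentSeries ℚ => u.coeff 0) h0
    simp [tv] at h1
  have hLf : LM (flt 0 g) 1 1 m := by
    refine LM_flt hN0 h1z ?_
    rw [mul_one]
    exact hL
  obtain ⟨g4, hg4⟩ : ∃ g4 : (ℤ × ℤ) →₀ ℚ, g4 = (flt 0 g).mapRange (fun u => u.coeff n) rfl := ⟨_, rfl⟩
  have hg4a : ∀ p, g4 p = (flt 0 g p).coeff n := by
    intro p; rw [hg4, Finsupp.mapRange_apply]
  rw [← hg4] at hn1
  have hL4 : LM g4 1 1 m := by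
    rw [hg4]
    apply LM_coeff
    have e : (cst (1 : ℚ) : LaurentSeries ℚ) = 1 := map_one _
    rw [e]
    exact hLf
  apply hn1
  refine of_Emp (Emp_T2 (D := D) hK0 h.δ0 h.δ2 h.hδ) (fun p hp => ?_) hL4
  obtain ⟨c, v⟩ := p
  have hp' : g4 (c, v) ≠ 0 := Finsupp.mem_support_iff.1 hp
  rw [hg4a] at hp'
  have hv0 : 0 ≤ v := by
    by_contra hneg
    push Not at hneg
    apply hp'
    rw [flt_apply_neg 0 g c v hneg]
    simp
  obtain ⟨k, rfl⟩ := Int.eq_ofNat_of_zero_le hv0
  have hcard : k < (fib 0 g c).card := by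
    by_contra hge
    exact hp' (flt_coeff_eq_zero hN0 hn2 (not_lt.1 hge))
  -- membership in the fibre
  have hfib : ∀ a ∈ fib 0 g c, ((c, (a : ℤ)) : ℤ × ℤ) ∈ g.support := by
    intro a ha
    unfold fib at ha
    rw [mem_image] at ha
    obtain ⟨p, hp, rfl⟩ := ha
    rw [mem_filter] at hp
    have h1 := hN0 p hp.1
    have h2 : ((c, (((p.2 + ((0 : ℕ) : ℤ)).toNat : ℕ) : ℤ)) : ℤ × ℤ) = p := by
      ext
      · exact hp.2.symm
      · simp only; omega
    rw [h2]
    exact hp.1
  have hne' : (fib 0 g c).Nonempty := card_pos.1 (by omega)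
  obtain ⟨lo, hlo⟩ : ∃ lo, lo = (fib 0 g c).min' hne' := ⟨_, rfl⟩
  obtain ⟨hi, hhi⟩ : ∃ hi, hi = (fib 0 g c).max' hne' := ⟨_, rfl⟩
  have hlom : lo ∈ fib 0 g c := by rw [hlo]; exact min'_mem _ _
  have hhim : hi ∈ fib 0 g c := by rw [hhi]; exact max'_mem _ _
  have hsub : fib 0 g c ⊆ Finset.Icc lo hi := by
    intro a ha
    rw [mem_Icc, hlo, hhi]
    exact ⟨min'_le _ _ ha, le_max' _ _ ha⟩
  have hlh : k + lo ≤ hi := by
    have := card_le_card hsub
    rw [Nat.card_Icc] at this
    omega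
  obtain ⟨a1, a2, a3⟩ := hg (hfib lo hlom)
  obtain ⟨b1, b2, b3⟩ := hg (hfib hi hhim)
  have hpos := BB_pos h (hg (hfib hi hhim))
  simp only at a1 a2 a3 b1 b2 b3 hpos
  have hc1 : 1 ≤ c := by
    rcases eq_or_lt_of_le hpos.1 with h0 | h0
    · exfalso
      have h1 := hpos.2.2 h0.symm
      have h2 := hfib hi hhim
      rw [h1, ← h0] at h2
      exact Finsupp.mem_support_iff.1 h2 hap
    · exact h0
  have hcR : (1 : ℝ) ≤ c := by exact_mod_cast hc1
  have hlhR : (k : ℝ) + lo ≤ hi := by exact_mod_cast hlh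
  have hloR : (0 : ℝ) ≤ lo := Nat.cast_nonneg lo
  push_cast at a2 a3 b2 b3
  -- `k ≤ 2 c`
  have h5 : K * ((K - M) * ((D : ℝ) - lo)) ≤ K * c := mul_le_mul_of_nonneg_left a2 hK0.le
  have h5' : (M : ℝ) * ((D : ℝ) - lo) ≤ 2 * K * c := by
    have : 2 * (K * ((K - M) * ((D : ℝ) - lo))) = M * ((D : ℝ) - lo) := by
      linear_combination ((D : ℝ) - lo) * h.hK
    linarith
  have h6 : (M : ℝ) * (hi - lo) ≤ 2 * M * c := by
    have h7 : (M : ℝ) * c ≤ M * (K * ((D : ℝ) - hi)) := mul_le_mul_of_nonneg_left b3 hMR.le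
    have h8 : K * (M * ((D : ℝ) - lo)) ≤ K * (2 * K * c) := mul_le_mul_of_nonneg_left h5' hK0.le
    have h9 : K * (M * (hi - lo : ℝ)) ≤ K * (2 * M * c) := by
      have e : K * (2 * K * (c : ℝ)) = M * c + K * (2 * M * c) := by
        linear_combination (c : ℝ) * h.hK
      rw [e] at h8
      linarith
    exact le_of_mul_le_mul_left h9 hK0
  have h7 : (k : ℝ) ≤ 2 * c := by
    have : (M : ℝ) * k ≤ M * (2 * c) := by
      have := mul_le_mul_of_nonneg_left (show (k : ℝ) ≤ hi - lo by linarith) hMR.le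
      linarith
    exact le_of_mul_le_mul_left this hMR
  have h8 : (k : ℤ) < 2 * c := by
    have h9 : (k : ℤ) ≤ 2 * c := by exact_mod_cast h7
    rcases eq_or_lt_of_le h9 with h10 | h10
    · exfalso
      have h10R : (k : ℝ) = 2 * c := by exact_mod_cast h10
      -- `c = K (D - hi)`
      have h11 : (hi : ℝ) - lo = 2 * c := by
        apply le_antisymm
        · have : (M : ℝ) * (hi - lo) ≤ M * (2 * c) := by linarith
          exact le_of_mul_le_mul_left this hMR
        · linarith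
      have h12 : (c : ℝ) = K * ((D : ℝ) - hi) := by
        apply le_antisymm b3
        have h13 : K * (M * ((D : ℝ) - lo)) ≤ K * (2 * K * c) := mul_le_mul_of_nonneg_left h5' hK0.le
        have e : K * (2 * K * (c : ℝ)) = M * c + K * (2 * M * c) := by
          linear_combination (c : ℝ) * h.hK
        have e2 : (lo : ℝ) = hi - 2 * c := by linarith
        rw [e, e2] at h13
        have h14 : (M : ℝ) * (K * ((D : ℝ) - hi)) ≤ M * c := by linarith
        exact le_of_mul_le_mul_left h14 hMR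
      have h15 : (D : ℝ) - hi ≠ 0 := by
        intro h0
        rw [h0, mul_zero] at h12
        linarith
      apply h.irr
      refine ⟨(c : ℚ) / ((D : ℚ) - hi), ?_⟩
      push_cast
      rw [h12]
      field_simp
    · exact h10
  refine ⟨hv0, h8, ?_, ?_⟩
  · simp only
    push_cast
    have h9 : K * (k : ℝ) ≤ K * hi := mul_le_mul_of_nonneg_left (by linarith) hK0.le
    linarith
  · simp only
    rcases lt_or_ge m k with hmk | hmk
    · left
      exact_mod_cast hmk
    · right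
      refine low_row h ?_
      intro h9
      apply hp'
      have h10 := hcol c k hmk (by exact_mod_cast h9)
      rw [flt_apply]
      have h11 : ∑ p ∈ g.support with p.1 = c,
          (((p.2 + ((0 : ℕ) : ℤ)).toNat.choose k : ℕ) : LaurentSeries ℚ) * g p = 0 := by
        rw [tau_eq_sum] at h10
        have hk : (k.factorial : LaurentSeries ℚ) ≠ 0 := by exact_mod_cast k.factorial_ne_zero
        apply (mul_eq_zero.1 (?_ : (k.factorial : LaurentSeries ℚ) * _ = 0)).resolve_left hk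
        rw [← h10, mul_sum]
        refine sum_congr rfl fun p hp => ?_
        rw [mem_filter] at hp
        obtain ⟨a, ha⟩ := Int.eq_ofNat_of_zero_le (hg hp.1).1
        have e : (p.2 + ((0 : ℕ) : ℤ)).toNat = a := by omega
        rw [e, ha, dsc_choose]
        ring
      rw [h11]
      simp

end Pool.Agent.N135.QT
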