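import Pool.Agent.TH469.SX.Slab
import Pool.Agent.N135.QT.Lead

set_option autoImplicit false

/-!
# Two toric statements for one point
-/

namespace Pool.Agent.N135.QT

open Finset Pool.Agent.TH176.Nag Pool.Agent.TH469.SX

/-- emptiness for one point, read over the rational numbers at the point `(1, 1)` -/
theorem of_Emp {w : ℕ} {S : Set (ℤ × ℤ)} (h : Emp (fun _ : Fin 1 => w) S) {f : (ℤ × ℤ) →₀ ℚ}
    (hS : (↑f.support : Set (ℤ × ℤ)) ⊆ S) (hL : LM f 1 1 w) : f = 0 := by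
  classical
  obtain ⟨K, _, _, x, y, hx, hy, hf⟩ := h
  let g : (ℤ × ℤ) →₀ K := Finsupp.onFinset f.support
    (fun m => (f m : K) * ((x 0) ^ (-m.1) * (y 0) ^ (-m.2))) (fun m hm => by
      rw [Finsupp.mem_support_iff]
      intro h
      apply hm
      rw [h]; simp)
  have hga : ∀ m, g m = (f m : K) * ((x 0) ^ (-m.1) * (y 0) ^ (-m.2)) := fun m => rfl
  have hgs : g.support ⊆ f.support := Finsupp.support_onFinset_subset
  have hg0 : g = 0 := by
    refine hf g (fun p hp => hS (hgs hp)) ?_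
    intro i
    obtain rfl : i = 0 := Subsingleton.elim _ _
    refine LM_of_mono fun a b hab => ?_
    have h1 := hL _ (mem_PF_mono hab)
    have h2 : pr g (x 0) (y 0) (fun u : K × K => u.1 ^ a * u.2 ^ b) =
        ((pr f 1 1 (fun u : ℚ × ℚ => u.1 ^ a * u.2 ^ b) : ℚ) : K) := by
      unfold pr
      rw [Finsupp.sum_of_support_subset g hgs _ (by simp)]
      unfold Finsupp.sum
      push_cast
      refine sum_congr rfl fun m _ => ?_
      rw [hga, zpow_neg, zpow_neg]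
      have h3 := zpow_ne_zero m.1 (hx 0)
      have h4 := zpow_ne_zero m.2 (hy 0)
      simp only [one_zpow, mul_one]
      field_simp
    rw [h2, h1]
    simp
  ext m
  have h1 := DFunLike.congr_fun hg0 m
  rw [hga] at h1
  simp only [Finsupp.coe_zero, Pi.zero_apply] at h1
  have h3 := zpow_ne_zero (-m.1) (hx 0)
  have h4 := zpow_ne_zero (-m.2) (hy 0)
  rcases mul_eq_zero.1 h1 with h2 | h2
  · rw [Finsupp.coe_zero, Pi.zero_apply]
    exact_mod_cast h2
  · rcases mul_eq_zero.1 h2 with h5 | h5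
    · exact absurd h5 h3
    · exact absurd h5 h4

/-- the first set -/
def T1 (D m j : ℕ) : Set (ℤ × ℤ) :=
  {p | (1 ≤ p.1 ∧ p.1 ≤ j ∧ 1 ≤ D - p.2 ∧ D - p.2 ≤ 2 * p.1) ∨
    ((m : ℤ) - j ≤ p.1 ∧ p.1 ≤ m ∧ 2 * p.1 - m ≤ p.2 ∧ p.2 ≤ m ∧
      (p.1 = m - j → 2 * p.1 - m < p.2))}

theorem Emp_T1 {D m j : ℕ} (hj : 2 * j < m) : Emp (fun _ : Fin 1 => 2 * j + 1) (T1 D m j) := by
  refine Emp_slabs 1 0 1 0 (by ring) fun k B hB => ?_
  simp only [univ_unique, sum_const, card_singleton, smul_eq_mul, one_mul]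
  have hmem : ∀ c ∈ B, ((1 ≤ c ∧ c ≤ j ∧ (k : ℤ) ≤ 2 * c - 1) ∨
      ((m : ℤ) - j ≤ c ∧ c ≤ m ∧ (k : ℤ) ≤ 2 * (m - c) ∧ (c = m - j → (k : ℤ) + 1 ≤ 2 * j))) := by
    intro c hc
    obtain ⟨s, T, hT, h1, h2⟩ := hB c hc
    simp only [one_mul, zero_mul, sub_zero, zero_add] at h1 h2
    rcases h1 with ⟨a1, a2, a3, a4⟩ | ⟨a1, a2, a3, a4, a5⟩ <;>
      rcases h2 with ⟨b1, b2, b3, b4⟩ | ⟨b1, b2, b3, b4, b5⟩ <;> simp only at a1 a2 a3 a4 b1 b2 b3 b4
    · left; omega
    · exfalso; omega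
    · exfalso; omega
    · right
      simp only at a5
      refine ⟨a1, a2, by omega, fun h => ?_⟩
      have := a5 h
      omega
  rcases le_or_gt (2 * j) k with hk | hk
  · have hB0 : B = ∅ := by
      rw [Finset.eq_empty_iff_forall_notMem]
      intro c hc
      rcases hmem c hc with ⟨a1, a2, a3⟩ | ⟨a1, a2, a3, a4⟩
      · omega
      · rcases eq_or_ne c ((m : ℤ) - j) with h | h
        · have := a4 h
          omega
        · omega
    rw [hB0]
    simp
  · have hsub : B ⊆ Finset.Icc (((k + 2) / 2 : ℕ) : ℤ) j ∪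
        Finset.Icc ((m : ℤ) - j) (m - ((k + 1) / 2 : ℕ)) := by
      intro c hc
      rw [mem_union, mem_Icc, mem_Icc]
      rcases hmem c hc with ⟨a1, a2, a3⟩ | ⟨a1, a2, a3, a4⟩
      · left; omega
      · right; omega
    refine (card_le_card hsub).trans ((card_union_le _ _).trans ?_)
    rw [Int.card_Icc, Int.card_Icc]
    omega

/-- the second set -/
def T2 (D m : ℕ) (K δ : ℝ) : Set (ℤ × ℤ) :=
  {p | 0 ≤ p.2 ∧ p.2 < 2 * p.1 ∧ (p.1 : ℝ) + K * p.2 ≤ K * D ∧
    ((m : ℤ) < p.2 ∨ (K + 1) * ((m : ℝ) - p.2) ≤ (2 * K + 1) * (m - p.1 + δ))}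

theorem Emp_T2 {D m ν : ℕ} {K δ : ℝ} (hK : 0 < K) (hδ0 : 0 ≤ δ) (hδ : δ * (2 * K + 2) + ν < K + 1)
    (hD : K * D = (K + 1) * m + ν + δ) : Emp (fun _ : Fin 1 => m) (T2 D m K δ) := by
  have hν : (0 : ℝ) ≤ ν := Nat.cast_nonneg ν
  have hδ1 : δ < 1 / 2 := by
    by_contra hcon
    push Not at hcon
    have : 1 / 2 * (2 * K + 2) ≤ δ * (2 * K + 2) := mul_le_mul_of_nonneg_right hcon (by linarith)
    linarith
  have hδν : δ + ν < K + 1 := by
    have : δ * 1 ≤ δ * (2 * K + 2) := mul_le_mul_of_nonneg_left (by linarith) hδ0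
    linarith
  refine Emp_slabs 1 (-1) 1 0 (by ring) fun k B hB => ?_
  simp only [univ_unique, sum_const, card_singleton, smul_eq_mul, one_mul]
  have hmem : ∀ c ∈ B, ((1 ≤ c ∧ (2 * K + 1) * ((c : ℝ) - δ) ≤ K * (m - k)) ∨
      (c ≤ 0 ∧ (2 * K + 1) * (-(c : ℝ)) ≤ δ + ν + (K + 1) * (m - k - 1))) := by
    intro c hc
    obtain ⟨s, T, hT, h1, h2⟩ := hB c hc
    simp only [one_mul, zero_mul, neg_mul, sub_neg_eq_add, zero_add] at h1 h2
    obtain ⟨a1, a2, a3, a4⟩ := h1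
    obtain ⟨b1, b2, b3, b4⟩ := h2
    simp only at a1 a2 a3 a4 b1 b2 b3 b4
    have hTR : (k : ℝ) ≤ T := by exact_mod_cast hT
    have hsR : (0 : ℝ) ≤ s := by exact_mod_cast a1
    push_cast at b3 b4
    rcases lt_or_ge 0 c with h | h
    · left
      refine ⟨h, ?_⟩
      have hcR : (1 : ℝ) ≤ c := by exact_mod_cast h
      have h3 : (K + 1) * ((s : ℝ) + T - m) ≤ δ + ν - c := by
        rw [hD] at b3; linarith
      rcases b4 with b4 | b4
      · exfalso
        have h4 : (m : ℝ) + 1 ≤ s + T := by exact_mod_cast b4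
        have h5 : (K + 1) * 1 ≤ (K + 1) * ((s : ℝ) + T - m) :=
          mul_le_mul_of_nonneg_left (by linarith) (by linarith)
        linarith
      · have h6 : (2 * K + 1) * ((c : ℝ) - δ) ≤ K * (m - (s + T)) := by linarith
        have h7 : K * ((m : ℝ) - (s + T)) ≤ K * (m - k) :=
          mul_le_mul_of_nonneg_left (by linarith) hK.le
        linarith
    · right
      refine ⟨h, ?_⟩
      have h3 : (K + 1) * ((s : ℝ) + T - m) ≤ δ + ν - c := by
        rw [hD] at b3; linarith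
      have h4 : 1 - 2 * c ≤ s := by omega
      have h4R : (1 : ℝ) - 2 * c ≤ s := by exact_mod_cast h4
      have h5 : (K + 1) * ((1 : ℝ) - 2 * c + k - m) ≤ (K + 1) * ((s : ℝ) + T - m) :=
        mul_le_mul_of_nonneg_left (by linarith) (by linarith)
      linarith
  have h2K : 0 < 2 * K + 1 := by linarith
  rcases le_or_gt m k with hk | hk
  · have hkR : (m : ℝ) ≤ k := by exact_mod_cast hk
    have hB0 : B = ∅ := by
      rw [Finset.eq_empty_iff_forall_notMem]
      intro c hc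
      rcases hmem c hc with ⟨a1, a2⟩ | ⟨a1, a2⟩
      · have hcR : (1 : ℝ) ≤ c := by exact_mod_cast a1
        have h3 : 0 < (2 * K + 1) * ((c : ℝ) - δ) := mul_pos h2K (by linarith)
        have h4 : K * ((m : ℝ) - k) ≤ 0 := mul_nonpos_of_nonneg_of_nonpos hK.le (by linarith)
        linarith
      · have hcR : (c : ℝ) ≤ 0 := by exact_mod_cast a1
        have h3 : 0 ≤ (2 * K + 1) * (-(c : ℝ)) := mul_nonneg h2K.le (by linarith)
        have h4 : (K + 1) * ((m : ℝ) - k) ≤ 0 :=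
          mul_nonpos_of_nonneg_of_nonpos (by linarith) (by linarith)
        linarith
    rw [hB0]
    simp
  · have hkR : (k : ℝ) + 1 ≤ m := by exact_mod_cast hk
    obtain ⟨V, hV⟩ : ∃ V : ℤ, V = ⌊K * ((m : ℝ) - k) / (2 * K + 1) + δ⌋ := ⟨_, rfl⟩
    obtain ⟨U, hU⟩ : ∃ U : ℤ, U = ⌊(δ + ν + (K + 1) * ((m : ℝ) - k - 1)) / (2 * K + 1)⌋ := ⟨_, rfl⟩
    have hV0 : 0 ≤ V := by
      rw [hV]
      apply Int.floor_nonneg.2
      have : 0 ≤ K * ((m : ℝ) - k) / (2 * K + 1) :=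
        div_nonneg (mul_nonneg hK.le (by linarith)) h2K.le
      linarith
    have hU0 : 0 ≤ U := by
      rw [hU]
      apply Int.floor_nonneg.2
      refine div_nonneg (add_nonneg (add_nonneg hδ0 hν) (mul_nonneg (by linarith) (by linarith))) h2K.le
    have hsub : B ⊆ Finset.Icc (-U) V := by
      intro c hc
      rw [mem_Icc]
      rcases hmem c hc with ⟨a1, a2⟩ | ⟨a1, a2⟩
      · refine ⟨by omega, ?_⟩
        rw [hV]
        apply Int.le_floor.2
        have h3 : (c : ℝ) - δ ≤ K * ((m : ℝ) - k) / (2 * K + 1) := by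
          rw [le_div_iff₀ h2K]; linarith
        linarith
      · refine ⟨?_, by omega⟩
        have : -c ≤ U := by
          rw [hU]
          apply Int.le_floor.2
          rw [le_div_iff₀ h2K]
          push_cast
          linarith
        omega
    have hc := card_le_card hsub
    rw [Int.card_Icc] at hc
    have h1 := Int.floor_le (K * ((m : ℝ) - k) / (2 * K + 1) + δ)
    have h2 := Int.floor_le ((δ + ν + (K + 1) * ((m : ℝ) - k - 1)) / (2 * K + 1))
    rw [← hV] at h1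
    rw [← hU] at h2
    rw [le_div_iff₀ h2K] at h2
    have h1' : ((V : ℝ) - δ) * (2 * K + 1) ≤ K * ((m : ℝ) - k) := by
      rw [← le_div_iff₀ h2K]; linarith
    have h3 : ((V : ℝ) + U) * (2 * K + 1) < ((m : ℝ) - k) * (2 * K + 1) := by
      linarith
    have h4 := lt_of_mul_lt_mul_right h3 h2K.le
    have h5 : V + U < (m : ℤ) - k := by exact_mod_cast h4
    omega

end Pool.Agent.N135.QT
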