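import Pool.Agent.N135.QT.Fam

set_option autoImplicit false

/-!
# Uniform multiplicities: 11, 15 and 27 points
-/

namespace Pool.Agent.N135.QT

open Finset Pool.Agent.TH176.Nag Pool.Agent.TH603.Sur Pool.Agent.TH603.Cut Pool.Agent.H932R3
open Pool.Agent.TH864.DP (wt3)

theorem sM_root {M r n : ℕ} (hMr : M * r = 9) (hn : n = 9 + 2 * r) : sM M * r = 3 * √(n : ℝ) := by
  have h1 : (M : ℝ) * r = 9 := by exact_mod_cast hMr
  have h2 : √(n : ℝ) * √(n : ℝ) = n := Real.mul_self_sqrt (Nat.cast_nonneg n)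
  have h3 := sM_sq M
  have h4 : 0 ≤ sM M * r := mul_nonneg (Real.sqrt_nonneg _) (Nat.cast_nonneg r)
  have h5 : 0 ≤ 3 * √(n : ℝ) := by positivity
  have h6 : (n : ℝ) = 9 + 2 * r := by rw [hn]; push_cast; ring
  refine (mul_self_inj h4 h5).1 ?_
  have e1 : sM M * r * (sM M * r) = (sM M * sM M) * (r * r) := by ring
  rw [e1, h3]
  have e2 : 3 * √(n : ℝ) * (3 * √(n : ℝ)) = 9 * n := by linear_combination 9 * h2
  rw [e2, h6]
  linear_combination (M * r + 9 + 2 * r : ℝ) * h1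

theorem good_root {M r n D m : ℕ} (hMr : M * r = 9) (hn : n = 9 + 2 * r)
    (h : ((√(n : ℝ) + 3) ^ 2 * ((3 * D : ℕ) - √(n : ℝ) * m) < 18 * (√(n : ℝ) - 3) ∧
        ¬ (M = 3 ∧ m = 10 ∧ D = 13)) ∨
      √(n : ℝ) * (2 * m + 1) ≤ 2 * (3 * D : ℕ) + 3) : Good M 0 D m := by
  have h1 : (M : ℝ) * r = 9 := by exact_mod_cast hMr
  have h2 : √(n : ℝ) * √(n : ℝ) = n := Real.mul_self_sqrt (Nat.cast_nonneg n)
  have h6 : (n : ℝ) = 9 + 2 * r := by rw [hn]; push_cast; ring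
  have hs := sM_root hMr hn
  have hr0 : 0 < r := Nat.pos_of_ne_zero (by rintro rfl; simp at hMr)
  have hrR : (0 : ℝ) < r := by exact_mod_cast hr0
  obtain ⟨ρ, hρ⟩ : ∃ ρ, ρ = √(n : ℝ) := ⟨_, rfl⟩
  rw [← hρ] at h hs h2
  have hρ0 : 0 ≤ ρ := by rw [hρ]; exact Real.sqrt_nonneg _
  have hρ2 : ρ * ρ = 9 + 2 * r := by rw [h2, h6]
  apply good_of
  push_cast at h
  rcases h with ⟨h, hexc⟩ | h
  · right; left
    refine ⟨?_, fun h3 => hexc ⟨h3.1, h3.2.1, h3.2.2.1⟩⟩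
    push_cast
    -- `(3 + ρ) (3 D - ρ m) < (9 / r) (ρ - 3) ^ 2`, times `r`
    have h3 : (ρ + 3) * ((ρ + 3) * (3 * D - ρ * m)) < (ρ + 3) * (2 * M * (9 + r - 3 * ρ)) := by
      have e1 : (ρ + 3) * (2 * M * (9 + r - 3 * ρ)) = 18 * (ρ - 3) := by
        have e2 : r * ((ρ + 3) * (2 * M * (9 + r - 3 * ρ))) = r * (18 * (ρ - 3)) := by
          have e3 : (ρ + 3) * (2 * (9 + r - 3 * ρ)) = (2 * r) * (ρ - 3) := by
            linear_combination (-6 : ℝ) * hρ2
          linear_combination (M * r : ℝ) * e3 + (2 * r * (ρ - 3) : ℝ) * h1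
        exact mul_left_cancel₀ hrR.ne' e2
      rw [e1]
      have e4 : (ρ + 3) * ((ρ + 3) * (3 * D - ρ * m)) = (ρ + 3) ^ 2 * (3 * D - ρ * m) := by ring
      rw [e4]
      exact h
    have h4 := lt_of_mul_lt_mul_left h3 (by linarith)
    have h5 : ((M + sM M) * D - (M + 2 + sM M) * m) * r < (2 * 0 + 2 * ((M : ℝ) - 0) * (M + 1 - sM M)) * r := by
      have e5 : ((M + sM M) * D - (M + 2 + sM M) * m) * r = (ρ + 3) * (3 * D - ρ * m) := by
        linear_combination (D - m : ℝ) * h1 + (D - m : ℝ) * hs + (m : ℝ) * hρ2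
      have e6 : (2 * 0 + 2 * ((M : ℝ) - 0) * (M + 1 - sM M)) * r = 2 * M * (9 + r - 3 * ρ) := by
        linear_combination (2 * M : ℝ) * h1 - (2 * M : ℝ) * hs
      rw [e5, e6]
      exact h4
    exact lt_of_mul_lt_mul_right h5 hrR.le
  · right; right
    push_cast
    have h3 := mul_le_mul_of_nonneg_left h hρ0
    have h4 : ((((M : ℝ) + 2) * (2 * m + 1) + 2 * 0) * r) ≤ (sM M * (2 * D + 1)) * r := by
      have e5 : ((((M : ℝ) + 2) * (2 * m + 1) + 2 * 0) * r) = ρ * (ρ * (2 * m + 1)) := by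
        linear_combination (2 * m + 1 : ℝ) * h1 - (2 * m + 1 : ℝ) * hρ2
      have e6 : (sM M * (2 * D + 1)) * r = ρ * (2 * (3 * D) + 3) := by
        linear_combination (2 * D + 1 : ℝ) * hs
      rw [e5, e6]
      exact h3
    exact le_of_mul_le_mul_right h4 hrR

theorem dich_unif {M r n : ℕ} (hMr : M * r = 9) (hn : n = 9 + 2 * r) {D m : ℕ}
    (hG : Good M 0 D m) : Emp (fun _ : Fin n => m) (TZ (3 * D)) ∨ Sur (fun _ : Fin n => m) (TZ (3 * D)) := by
  have hM : 1 ≤ M := Nat.pos_of_ne_zero (by rintro rfl; simp at hMr)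
  have hr : 1 ≤ r := Nat.pos_of_ne_zero (by rintro rfl; simp at hMr)
  have hn' : 0 + r * (M + 2) = n := by rw [hn]; nlinarith
  subst hn'
  have h := joint2 (M := M) (r := r) (k := 0) (b := 0) (D := D) (m := m) hM hr
    (by rw [zero_add, mul_comm]; exact hMr) (by omega) hG
  have e : wt3 (0 + r * (M + 2)) 0 (r * 0) D m = fun _ => m := by
    funext i
    simp [wt3]
  rw [e] at h
  exact h

/-- **11, 15 and 27 points** -/
theorem uniform {n : ℕ} (hn : n = 11 ∨ n = 15 ∨ n = 27) (m : ℕ) :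
    ∃ F : MvPolynomial (Fin n × Fin 2) ℚ, F ≠ 0 ∧ ∀ {L : Type} [Field L] [CharZero L]
      (P : Fin n → Fin 2 → L), MvPolynomial.aeval (fun ij : Fin n × Fin 2 => P ij.1 ij.2) F ≠ 0 →
      ∀ d : ℕ, ((¬ 3 ∣ d ∧ n ≠ 27) ∨
        (3 ∣ d ∧ (√(n : ℝ) + 3) ^ 2 * (d - √(n : ℝ) * m) < 18 * (√(n : ℝ) - 3) ∧
          ¬ (n = 15 ∧ d = 39 ∧ m = 10)) ∨
        (3 ∣ d ∧ √(n : ℝ) * (2 * m + 1) ≤ 2 * d + 3)) → ExpDim L (fun _ => m) P d := by
  refine Pool.Agent.TH864.SX.expDim_of_or' fun d hd => ?_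
  by_cases h3 : 3 ∣ d
  · obtain ⟨D, rfl⟩ := h3
    have h3' : 3 ∣ 3 * D := ⟨D, rfl⟩
    have key : ∀ {M r : ℕ}, M * r = 9 → n = 9 + 2 * r → (n ≠ 15 → M ≠ 3) →
        Emp (fun _ : Fin n => m) (TZ (3 * D)) ∨ Sur (fun _ : Fin n => m) (TZ (3 * D)) := by
      intro M r hMr hn' hM3
      refine dich_unif hMr hn' (good_root hMr hn' ?_)
      rcases hd with hd | hd | hd
      · exact absurd h3' hd.1
      · left
        refine ⟨hd.2.1, fun h4 => hd.2.2 ⟨?_, by omega, h4.2.1⟩⟩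
        by_contra h5
        exact hM3 h5 h4.1
      · right
        exact hd.2
    rcases hn with rfl | rfl | rfl
    · exact key (M := 9) (r := 1) (by norm_num) (by norm_num) (by norm_num)
    · exact key (M := 3) (r := 3) (by norm_num) (by norm_num) (by norm_num)
    · exact key (M := 1) (r := 9) (by norm_num) (by norm_num) (by norm_num)
  · have hn27 : n ≠ 27 := by
      rcases hd with hd | hd | hd
      · exact hd.2
      · exact absurd hd.1 h3
      · exact absurd hd.1 h3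
    rcases hn with rfl | rfl | rfl
    · exact Pool.Agent.TH864.SX.dich' Pool.Agent.TH864.SX.num11 Pool.Agent.TH864.SX.K11_lt m d (Or.inl h3)
    · exact Pool.Agent.TH469.SX.dich_three (b := 5) Pool.Agent.TH469.SX.slp15
        Pool.Agent.TH469.SX.K15_lt (Pool.Agent.TH469.SX.dich5 m d (Or.inl h3))
    · exact absurd rfl hn27

end Pool.Agent.N135.QT
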